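import Pool.Agent.H.MP_21b43d_ag.Z.Frac

/-! # M21 (MP_21b43d), section 3, file Z/Alg: Lemma F for the sections over an affine open set. -/

namespace M21.Z

variable {A K : Type} [CommRing A] [Field K]

/-- Lemma F for a ring `A` of finite type over `ℂ` with a homomorphism `ev` to a field `K`, the
fraction field of the image of `A`, where the image has dimension one. -/
theorem exists_cocycle_of_evaluation (cA : ℂ →+* A) (hA : cA.FiniteType) (ev : A →+* K)
    (hfrac : ∀ x : K, ∃ a b : A, ev b ≠ 0 ∧ x * ev b = ev a)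
    (hdim : Ring.DimensionLEOne (A ⧸ RingHom.ker ev)) (hnf : ¬ (RingHom.ker ev).IsMaximal) :
    ∃ M : Ideal A, M.IsMaximal ∧ (∀ a, ev a = 0 → a ∈ M) ∧ (∃ s ∈ M, ev s ≠ 0) ∧
      ∃ c : K, (∀ a ∈ M, ∃ b : A, ev b = ev a * c) ∧
        ∀ R₁ : Subring K,
          (∀ V : ValuationSubring K, (∀ a : ℂ, ev (cA a) ∈ V) →
            (∀ r : A, ev r ∈ V) ∨ R₁ ≤ V.toSubring) →
          ∀ (d : ℕ) (g₀ g₁ : K), d ≠ 0 → IsIntegral ev.range g₀ → IsIntegral R₁ g₁ →
            g₀ - g₁ = d * c →
            letI := (ev.comp cA).toAlgebra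
            Nonempty (RatFunc ℂ ≃ₐ[ℂ] K) := by
  let R := A ⧸ RingHom.ker ev
  let q : A →+* R := Ideal.Quotient.mk (RingHom.ker ev)
  have hq : Function.Surjective q := Ideal.Quotient.mk_surjective
  have hprime : (RingHom.ker ev).IsPrime := RingHom.ker_isPrime ev
  have : IsDomain R := Ideal.Quotient.isDomain _
  let _ : Algebra ℂ R := (q.comp cA).toAlgebra
  let _ : Algebra R K := (RingHom.kerLift ev).toAlgebra
  let _ : Algebra ℂ K := (ev.comp cA).toAlgebra
  have hqK : ∀ a : A, algebraMap R K (q a) = ev a := fun a => rfl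
  have : IsScalarTower ℂ R K := IsScalarTower.of_algebraMap_eq fun c => rfl
  have : Algebra.FiniteType ℂ R := by
    have h1 : (q.comp cA).FiniteType := (RingHom.FiniteType.of_surjective q hq).comp hA
    exact h1
  have hinj : Function.Injective (algebraMap R K) := RingHom.kerLift_injective ev
  have : FaithfulSMul R K := (faithfulSMul_iff_algebraMap_injective R K).2 hinj
  have : IsFractionRing R K := by
    refine IsFractionRing.of_field R K fun x => ?_
    obtain ⟨a, b, hb, hab⟩ := hfrac x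
    exact ⟨q a, q b, by rw [hqK, hqK, ← hab, mul_div_cancel_right₀ _ hb]⟩
  have : Ring.DimensionLEOne R := hdim
  obtain ⟨f, hf0, hf⟩ := exists_conductor ℂ R K
  have : IsJacobsonRing R := isJacobsonRing_of_finiteType (A := ℂ)
  have hjac : (⊥ : Ideal R).jacobson = ⊥ := (isJacobsonRing_iff_prime_eq.1 ‹_›) ⊥ Ideal.isPrime_bot
  have hfj : f ∉ (⊥ : Ideal R).jacobson := by
    rw [hjac]
    exact hf0
  obtain ⟨m, hm, hfm⟩ : ∃ m : Ideal R, m.IsMaximal ∧ f ∉ m := by
    by_contra hne
    apply hfj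
    rw [Ideal.jacobson, Ideal.mem_sInf]
    rintro J ⟨-, hJ⟩
    by_contra hfJ
    exact hne ⟨J, hJ, hfJ⟩
  have hm0 : m ≠ ⊥ := by
    rintro rfl
    apply hnf
    have h1 := Ideal.comap_isMaximal_of_surjective q hq (K := (⊥ : Ideal R))
    have h2 : Ideal.comap q ⊥ = RingHom.ker ev := Ideal.mk_ker
    rwa [h2] at h1
  obtain ⟨c, hmc, hc⟩ := exists_cocycle ℂ R K hf m hm0 hfm
  refine ⟨m.comap q, Ideal.comap_isMaximal_of_surjective q hq, ?_, ?_, c, ?_, ?_⟩
  · intro a ha
    have : q a = 0 := Ideal.Quotient.eq_zero_iff_mem.2 ha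
    rw [Ideal.mem_comap, this]
    exact m.zero_mem
  · obtain ⟨t, ht, ht0⟩ := Submodule.exists_mem_ne_zero_of_ne_bot hm0
    obtain ⟨s, rfl⟩ := hq t
    exact ⟨s, ht, fun h => ht0 (Ideal.Quotient.eq_zero_iff_mem.2 h)⟩
  · intro a ha
    obtain ⟨r', hr'⟩ := hmc (q a) ha
    obtain ⟨b, rfl⟩ := hq r'
    exact ⟨b, hr'⟩
  · intro R₁ hcov d g₀ g₁ hd hg₀ hg₁ hg
    refine hc R₁ ?_ d g₀ g₁ hd ?_ hg₁ hg
    · intro V hV
      rcases hcov V hV with h | h
      · left
        intro r
        obtain ⟨a, rfl⟩ := hq r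
        exact h a
      · exact Or.inr h
    · obtain ⟨p, hp, hpx⟩ := hg₀
      let θ : ev.range →+* R := (RingHom.quotientKerEquivRange ev).symm.toRingHom
      have hθ : (algebraMap R K).comp θ = algebraMap ev.range K := by
        ext y
        obtain ⟨r, rfl⟩ := (RingHom.quotientKerEquivRange ev).surjective y
        change algebraMap R K ((RingHom.quotientKerEquivRange ev).symm
          ((RingHom.quotientKerEquivRange ev) r)) = _
        rw [RingEquiv.symm_apply_apply]
        obtain ⟨a, rfl⟩ := Ideal.Quotient.mk_surjective r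
        rfl
      refine ⟨p.map θ, hp.map θ, ?_⟩
      rw [Polynomial.eval₂_map, hθ]
      exact hpx

end M21.Z
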