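import Pool.Agent.H.MP_21b43d_ag.Z.Pair
import Pool.Agent.H.MP_21b43d_ag.Z.Center
import Pool.Agent.H.MP_21b43d_ag.Z.Alg

/-! # M21 (MP_21b43d), section 3, file Z/Cst: constants; the cocycle of Theorem Z. -/

open CategoryTheory AlgebraicGeometry IsLocalRing TopologicalSpace

namespace M21.Z

variable {X : Scheme.{0}} (f : X ⟶ Spec (.of ℂ))

theorem le_preimage_top (W : X.Opens) : W ≤ f ⁻¹ᵁ ⊤ := fun _ _ => trivial

/-- The constants in the sections over an open set. -/
noncomputable def constHom (W : X.Opens) : ℂ →+* Γ(X, W) :=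
  ((Scheme.ΓSpecIso (.of ℂ)).inv ≫ f.appLE ⊤ W (le_preimage_top f W)).hom

theorem evaluation_constHom (W : X.Opens) (z : X) (hz : z ∈ W) (c : ℂ) :
    X.evaluation W z hz (constHom f W c) = ptHom f z c := by
  have h : ((Scheme.ΓSpecIso (.of ℂ)).inv ≫ f.appLE ⊤ W (le_preimage_top f W)) ≫ X.evaluation W z hz =
      Spec.preimage (X.fromSpecResidueField z ≫ f) := by
    apply Spec.map_injective
    rw [Spec.map_preimage, Spec.map_comp, Spec.map_comp,
      show X.evaluation W z hz = X.presheaf.germ W z hz ≫ X.residue z from rfl, Spec.map_comp,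
      ← Scheme.Opens.fromSpecStalkOfMem_toSpecΓ]
    simp only [Category.assoc]
    rw [Scheme.Opens.toSpecΓ_SpecMap_appLE_assoc, Scheme.Opens.toSpecΓ_top]
    simp only [Category.assoc]
    rw [toSpecΓ_SpecMap_ΓSpecIso_inv, Category.comp_id, Scheme.Hom.resLE_comp_ι,
      Scheme.Opens.fromSpecStalkOfMem_ι_assoc]
    rfl
  exact congrArg (fun g : CommRingCat.of ℂ ⟶ X.residueField z => g.hom c) h

/-- The constants form a ring homomorphism of finite type on affine open sets. -/
theorem finiteType_constHom [LocallyOfFiniteType f] {W : X.Opens} (hW : IsAffineOpen W) :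
    (constHom f W).FiniteType := by
  have h1 : (f.appLE ⊤ W (le_preimage_top f W)).hom.FiniteType :=
    f.finiteType_appLE (isAffineOpen_top _) hW (le_preimage_top f W)
  have h2 : (Scheme.ΓSpecIso (.of ℂ)).inv.hom.FiniteType :=
    RingHom.FiniteType.of_surjective _
      (Scheme.ΓSpecIso (.of ℂ)).symm.commRingCatIsoToRingEquiv.surjective
  exact h1.comp h2

/-- A point of a scheme locally of finite type over `ℂ` that is not closed is not closed in any
affine open set. -/
theorem not_isMaximal_ker [LocallyOfFiniteType f] {W : X.Opens} (hW : IsAffineOpen W) {z : X}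
    (hz : z ∈ W) (hzc : ¬ IsClosed ({z} : Set X)) :
    ¬ (RingHom.ker (X.evaluation W z hz).hom).IsMaximal := by
  intro hmax
  have : JacobsonSpace X := LocallyOfFiniteType.jacobsonSpace f
  apply hzc
  apply isClosed_singleton_of_isLocallyClosed_singleton
  have h1 : ({z} : Set X) = closure {z} ∩ W := by
    apply Set.Subset.antisymm
    · rintro _ rfl
      exact ⟨subset_closure rfl, hz⟩
    · rintro y ⟨hy, hyW⟩
      have hzy : z ⤳ y := specializes_iff_mem_closure.2 hy
      have h4 : ∀ s : Γ(X, W), X.evaluation W z hz s = 0 → X.evaluation W y hyW s = 0 := by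
        intro s hs
        by_contra hne
        have h5 := (Scheme.evaluation_ne_zero_iff_mem_basicOpen X y hyW s).1 hne
        have h6 := hzy.mem_open (X.basicOpen s).2 h5
        exact (Scheme.evaluation_ne_zero_iff_mem_basicOpen X z hz s).2 h6 hs
      have h7 : RingHom.ker (X.evaluation W z hz).hom = RingHom.ker (X.evaluation W y hyW).hom :=
        hmax.eq_of_le (RingHom.ker_ne_top _) h4
      have h2 : hW.primeIdealOf ⟨z, hz⟩ = hW.primeIdealOf ⟨y, hyW⟩ := by
        apply PrimeSpectrum.ext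
        ext s
        rw [mem_primeIdealOf hW hz s, mem_primeIdealOf hW hyW s]
        exact SetLike.ext_iff.1 h7 s
      have h3 := congrArg hW.fromSpec h2
      rw [hW.fromSpec_primeIdealOf, hW.fromSpec_primeIdealOf] at h3
      exact h3.symm
  rw [h1]
  exact isClosed_closure.isLocallyClosed.inter W.2.isLocallyClosed

theorem evaluation_res {U V : X.Opens} (i : V ≤ U) (z : X) (hzU : z ∈ U) (hzV : z ∈ V)
    (s : Γ(X, U)) :
    X.evaluation V z hzV (X.presheaf.map (homOfLE i).op s) = X.evaluation U z hzU s := by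
  have h := TopCat.Presheaf.germ_res_apply X.presheaf (homOfLE i) z hzV s
  exact congrArg (X.residue z) h

/-- A quotient of values is the value of a section over the basic open set. -/
theorem exists_evaluation_eq {W : X.Opens} {z : X} (hz : z ∈ W) (h s : Γ(X, W))
    {c : X.residueField z}
    (hs : X.evaluation W z hz s = X.evaluation W z hz h * c) (U : X.Opens)
    (hU : X.basicOpen h = U) (hzU : z ∈ U) : ∃ c' : Γ(X, U), X.evaluation U z hzU c' = c := by
  subst hU
  have hle : X.basicOpen h ≤ W := X.basicOpen_le h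
  have hunit : IsUnit (X.presheaf.map (homOfLE hle).op h) :=
    X.toRingedSpace.isUnit_res_basicOpen h
  obtain ⟨u, hu⟩ := hunit
  refine ⟨X.presheaf.map (homOfLE hle).op s * ((u⁻¹ : (Γ(X, X.basicOpen h))ˣ) : Γ(X, X.basicOpen h)),
    ?_⟩
  have h1 : X.evaluation (X.basicOpen h) z hzU (u : Γ(X, X.basicOpen h)) =
      X.evaluation W z hz h := by
    rw [hu]
    exact evaluation_res hle z hz hzU h
  have h2 : X.evaluation (X.basicOpen h) z hzU (X.presheaf.map (homOfLE hle).op s) =
      X.evaluation W z hz h * c := by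
    rw [← hs]
    exact evaluation_res hle z hz hzU s
  have h3 : X.evaluation W z hz h ≠ 0 := by
    rw [Scheme.evaluation_ne_zero_iff_mem_basicOpen]
    exact hzU
  have h4 : X.evaluation (X.basicOpen h) z hzU (u : Γ(X, X.basicOpen h)) *
      X.evaluation (X.basicOpen h) z hzU
        ((u⁻¹ : (Γ(X, X.basicOpen h))ˣ) : Γ(X, X.basicOpen h)) = 1 := by
    rw [← map_mul, Units.mul_inv, map_one]
  rw [map_mul, h2]
  rw [h1] at h4
  rw [mul_right_comm, h4, one_mul]

/-- **Theorem Z, the main case.** -/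
theorem exists_two_opens [IsProper f] [NoetherianSpace X] {L : Type} [AddCommGroup L] [Module ℂ L]
    (P : LinForms X L) {T : Set X} (hT : IsClosed T)
    (hdim : ∀ t ∈ T, ∀ y : X, t ⤳ y → y ≠ t → IsClosed ({y} : Set X))
    {z : X} (hzT : z ∈ T) (hz : ¬ IsClosed ({z} : Set X)) :
    ∃ (W₀ W₁ : X.Opens) (h0 : z ∈ W₀) (h1 : z ∈ W₁) (c : Γ(X, W₀ ⊓ W₁)),
      IsAffineOpen W₀ ∧ IsAffineOpen W₁ ∧ (∀ t ∈ T, t ∈ W₀ ∨ t ∈ W₁) ∧
      ∀ (d : ℕ) (g₀ g₁ : X.residueField z), d ≠ 0 →
        IsIntegral (X.evaluation W₀ z h0).hom.range g₀ →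
        IsIntegral (X.evaluation W₁ z h1).hom.range g₁ →
        g₀ - g₁ = d * X.evaluation (W₀ ⊓ W₁) z ⟨h0, h1⟩ c →
        letI := (ptHom f z).toAlgebra
        Nonempty (RatFunc ℂ ≃ₐ[ℂ] X.residueField z) := by
  obtain ⟨l₀, hz0, hfin⟩ := P.exists_first hT hdim z
  have hW₀ := P.affine l₀
  obtain ⟨M, hM, hkM, ⟨s₀, hs₀, hs₀z⟩, c, hMc, hc⟩ := exists_cocycle_of_evaluation
    (constHom f (P.D l₀)) (finiteType_constHom f hW₀) (X.evaluation (P.D l₀) z hz0).hom
    (fun x => exists_evaluation_div hW₀ hz0 x)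
    (dimensionLEOne hW₀ hz0 (hdim z hzT)) (not_isMaximal_ker f hW₀ hz0 hz)
  have hMp : M.IsPrime := hM.isPrime
  obtain ⟨x₀, hx₀, hzx₀, hMx₀⟩ := exists_point hW₀ hz0 M hkM
  have hne : x₀ ≠ z := by
    rintro rfl
    exact hs₀z ((hMx₀ s₀).1 hs₀)
  have hx₀c : IsClosed ({x₀} : Set X) := hdim z hzT x₀ hzx₀ hne
  obtain ⟨l₁, hx₁, hl₁⟩ := P.exists_forall_mem_of_van (F := insert z (T \ (P.D l₀ : Set X)))
    (hfin.insert z) hx₀c (by
      rintro (h | h)
      · exact hne h
      · exact h.2 hx₀)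
  have hz1 : z ∈ P.D l₁ := hl₁ z (Set.mem_insert _ _)
  obtain ⟨h, hh⟩ := P.ratio l₀ l₁
  have hhM : h ∈ M := by
    rw [hMx₀, Scheme.evaluation_eq_zero_iff_notMem_basicOpen, hh]
    exact fun h' => hx₁ h'.2
  obtain ⟨s, hs⟩ := hMc h hhM
  obtain ⟨c', hc'⟩ := exists_evaluation_eq hz0 h s hs (P.D l₀ ⊓ P.D l₁) hh ⟨hz0, hz1⟩
  refine ⟨P.D l₀, P.D l₁, hz0, hz1, c', hW₀, P.affine l₁, ?_, ?_⟩
  · intro t ht
    by_cases h0 : t ∈ P.D l₀
    · exact Or.inl h0
    · exact Or.inr (hl₁ t (Set.mem_insert_of_mem _ ⟨ht, h0⟩))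
  · intro d g₀ g₁ hd hg₀ hg₁ hg
    rw [hc'] at hg
    have key := hc (X.evaluation (P.D l₁) z hz1).hom.range ?_ d g₀ g₁ hd hg₀ hg₁ hg
    · have e : (X.evaluation (P.D l₀) z hz0).hom.comp (constHom f (P.D l₀)) = ptHom f z :=
        RingHom.ext fun a => evaluation_constHom f (P.D l₀) z hz0 a
      rw [e] at key
      exact key
    · intro V hV
      obtain ⟨y, hzy, hy⟩ := exists_center f z V fun a => by
        rw [← evaluation_constHom f (P.D l₀) z hz0 a]
        exact hV a
      have hyT : y ∈ T := hzy.mem_closed hT hzT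
      by_cases h0 : y ∈ P.D l₀
      · exact Or.inl fun r => hy (P.D l₀) h0 r
      · right
        rintro _ ⟨r, rfl⟩
        exact hy (P.D l₁) (hl₁ y (Set.mem_insert_of_mem _ ⟨hyT, h0⟩)) r

end M21.Z
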