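import Mathlib

/-! # M21 (MP_21b43d), section 3, file Z/LocA: the plane, regular sequences. -/

open CategoryTheory AlgebraicGeometry IsLocalRing MvPolynomial

namespace M21.Z

/-- ZL1. A maximal ideal of `ℂ[X_0, X_1]` is generated by `X_0 - a, X_1 - b`
(`MvPolynomial.isMaximal_iff_eq_vanishingIdeal_singleton`, Nullstellensatz). -/
theorem exists_eq_span (n : Ideal (MvPolynomial (Fin 2) ℂ)) (hn : n.IsMaximal) :
    ∃ a b : ℂ, n = Ideal.span {X 0 - C a, X 1 - C b} := by
  obtain ⟨x, hx⟩ := MvPolynomial.isMaximal_iff_eq_vanishingIdeal_singleton.1 hn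
  refine ⟨x 0, x 1, ?_⟩
  have key : ∀ p : MvPolynomial (Fin 2) ℂ,
      p - C (aeval x p) ∈ (Ideal.span {X 0 - C (x 0), X 1 - C (x 1)} :
        Ideal (MvPolynomial (Fin 2) ℂ)) := by
    intro p
    have h : (Ideal.Quotient.mkₐ ℂ (Ideal.span {X 0 - C (x 0), X 1 - C (x 1)} :
          Ideal (MvPolynomial (Fin 2) ℂ))) =
        (Ideal.Quotient.mkₐ ℂ (Ideal.span {X 0 - C (x 0), X 1 - C (x 1)} :
          Ideal (MvPolynomial (Fin 2) ℂ))).comp
          ((Algebra.ofId ℂ (MvPolynomial (Fin 2) ℂ)).comp (aeval x)) := by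
      apply MvPolynomial.algHom_ext
      intro i
      simp only [AlgHom.comp_apply, aeval_X, Algebra.ofId_apply, Ideal.Quotient.mkₐ_eq_mk]
      rw [Ideal.Quotient.eq]
      fin_cases i
      · exact Ideal.subset_span (by simp [MvPolynomial.algebraMap_eq])
      · exact Ideal.subset_span (by simp [MvPolynomial.algebraMap_eq])
    have h2 := congrArg (fun f => f p) h
    simp only [AlgHom.comp_apply, Algebra.ofId_apply, Ideal.Quotient.mkₐ_eq_mk] at h2
    rw [Ideal.Quotient.eq] at h2
    exact h2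
  apply le_antisymm
  · intro p hp
    rw [hx, MvPolynomial.mem_vanishingIdeal_singleton_iff] at hp
    have := key p
    rw [hp] at this
    simpa using this
  · rw [Ideal.span_le, hx]
    intro p hp
    rcases hp with rfl | hp
    · simp [MvPolynomial.mem_vanishingIdeal_singleton_iff]
    · rw [Set.mem_singleton_iff] at hp
      subst hp
      simp [MvPolynomial.mem_vanishingIdeal_singleton_iff]

/-- ZL2. `X_0 - a, X_1 - b` is a regular sequence in `ℂ[X_0, X_1]`: the first is a nonzero divisor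
(domain); if `X_0 - a` divides `(X_1 - b) p`, then it divides `p` (it is prime: the quotient is
`ℂ[X_1]`, or `MvPolynomial.X_prime` after a translation; it does not divide `X_1 - b` because the
value at `X_0 = a` is not zero). -/
theorem dvd_of_dvd_mul (a b : ℂ) (p : MvPolynomial (Fin 2) ℂ)
    (h : (X 0 - C a : MvPolynomial (Fin 2) ℂ) ∣ (X 1 - C b) * p) :
    (X 0 - C a : MvPolynomial (Fin 2) ℂ) ∣ p := by
  let φ : MvPolynomial (Fin 2) ℂ →ₐ[ℂ] Polynomial ℂ := aeval ![Polynomial.C a, Polynomial.X]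
  let ι : Polynomial ℂ →ₐ[ℂ] MvPolynomial (Fin 2) ℂ := Polynomial.aeval (X 1)
  have hφ0 : φ (X 0) = Polynomial.C a := by simp [φ]
  have hφ1 : φ (X 1) = Polynomial.X := by simp [φ]
  have hφC : ∀ c : ℂ, φ (C c) = Polynomial.C c := fun c => by simp [φ]
  have key : ∀ p : MvPolynomial (Fin 2) ℂ, (X 0 - C a : MvPolynomial (Fin 2) ℂ) ∣ p - ι (φ p) := by
    intro p
    have h : (Ideal.Quotient.mkₐ ℂ (Ideal.span {X 0 - C a} :
          Ideal (MvPolynomial (Fin 2) ℂ))) =
        (Ideal.Quotient.mkₐ ℂ (Ideal.span {X 0 - C a} :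
          Ideal (MvPolynomial (Fin 2) ℂ))).comp (ι.comp φ) := by
      apply MvPolynomial.algHom_ext
      intro i
      simp only [AlgHom.comp_apply, Ideal.Quotient.mkₐ_eq_mk]
      rw [Ideal.Quotient.eq]
      fin_cases i
      · apply Ideal.subset_span
        change X 0 - ι (φ (X 0)) ∈ _
        rw [hφ0]
        simp [ι, MvPolynomial.algebraMap_eq]
      · change X 1 - ι (φ (X 1)) ∈ _
        rw [hφ1]
        simp [ι]
    have h2 := congrArg (fun f => f p) h
    simp only [AlgHom.comp_apply, Ideal.Quotient.mkₐ_eq_mk] at h2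
    rw [Ideal.Quotient.eq, Ideal.mem_span_singleton] at h2
    exact h2
  have h1 : φ p = 0 := by
    obtain ⟨q, hq⟩ := h
    have h3 := congrArg φ hq
    rw [map_mul, map_mul, map_sub, map_sub, hφ0, hφ1, hφC, hφC, sub_self, zero_mul] at h3
    rcases mul_eq_zero.1 h3 with h4 | h4
    · exact absurd h4 (Polynomial.X_sub_C_ne_zero b)
    · exact h4
  have := key p
  rwa [h1, map_zero, sub_zero] at this

/-- ZL3. Let `R₀ → R` be a flat ring homomorphism and `u, v ∈ R₀` with: `u x = 0 → x = 0`, and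
`u ∣ v x → u ∣ x`. The images of `u, v` in `R` have the same properties. Proof: the multiplication
by `u` on `R = R ⊗ R₀` is injective (`Module.Flat.lTensor_preserves_injective_linearMap`); the
multiplication by `v` on `R₀/u` is injective and `R ⊗ (R₀/u) = R/u`. -/
theorem regular_of_flat {R₀ R : Type} [CommRing R₀] [CommRing R] [Algebra R₀ R] [Module.Flat R₀ R]
    (u v : R₀) (h₁ : ∀ x : R₀, u * x = 0 → x = 0) (h₂ : ∀ x : R₀, u ∣ v * x → u ∣ x) :
    (∀ x : R, algebraMap R₀ R u * x = 0 → x = 0) ∧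
      ∀ x : R, algebraMap R₀ R u ∣ algebraMap R₀ R v * x → algebraMap R₀ R u ∣ x := by
  have reg : RingTheory.Sequence.IsWeaklyRegular R₀ [u, v] := by
    rw [RingTheory.Sequence.isWeaklyRegular_cons_iff]
    refine ⟨?_, ?_⟩
    · rw [isSMulRegular_iff_right_eq_zero_of_smul]
      intro x hx
      exact h₁ x (by simpa using hx)
    · rw [RingTheory.Sequence.isWeaklyRegular_cons_iff]
      refine ⟨?_, RingTheory.Sequence.IsWeaklyRegular.nil _ _⟩
      rw [isSMulRegular_iff_right_eq_zero_of_smul]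
      intro x
      obtain ⟨x, rfl⟩ := Submodule.Quotient.mk_surjective _ x
      intro hx
      rw [← Submodule.Quotient.mk_smul, Submodule.Quotient.mk_eq_zero] at hx
      rw [Submodule.Quotient.mk_eq_zero]
      rw [Submodule.mem_smul_pointwise_iff_exists] at hx ⊢
      obtain ⟨y, -, hy⟩ := hx
      obtain ⟨z, hz⟩ := h₂ x ⟨y, by simpa using hy.symm⟩
      exact ⟨z, trivial, by simpa using hz.symm⟩
  have reg' := RingTheory.Sequence.IsWeaklyRegular.of_flat (S := R) reg
  simp only [List.map_cons, List.map_nil] at reg'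
  rw [RingTheory.Sequence.isWeaklyRegular_cons_iff] at reg'
  obtain ⟨r1, r2⟩ := reg'
  rw [RingTheory.Sequence.isWeaklyRegular_cons_iff] at r2
  obtain ⟨r2, -⟩ := r2
  rw [isSMulRegular_iff_right_eq_zero_of_smul] at r1 r2
  refine ⟨fun x hx => r1 x (by simpa using hx), fun x hx => ?_⟩
  obtain ⟨y, hy⟩ := hx
  have h3 := r2 (Submodule.Quotient.mk x) (by
    rw [← Submodule.Quotient.mk_smul, Submodule.Quotient.mk_eq_zero,
      Submodule.mem_smul_pointwise_iff_exists]
    exact ⟨y, trivial, by simpa using hy.symm⟩)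
  rw [Submodule.Quotient.mk_eq_zero, Submodule.mem_smul_pointwise_iff_exists] at h3
  obtain ⟨z, -, hz⟩ := h3
  exact ⟨z, by simpa using hz.symm⟩

end M21.Z
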