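import Pool.Agent.H.MP_21b43d_ag.CA2
import Pool.Agent.H.MP_21b43d_ag.Z.LocA

/-! # M21 (MP_21b43d), section 3, file Z/LocB: the local rings of a smooth surface at closed
points are regular of dimension two. -/

open CategoryTheory AlgebraicGeometry IsLocalRing MvPolynomial

namespace M21.Z

/-- The contraction of a maximal ideal to a Jacobson ring along a morphism of finite type is
maximal. -/
theorem isMaximal_comap_of_finiteType {P B : Type} [CommRing P] [CommRing B] [Algebra P B]
    [IsJacobsonRing P] [Algebra.FiniteType P B] (Q : Ideal B) [hQ : Q.IsMaximal] :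
    (Q.comap (algebraMap P B)).IsMaximal := by
  let : Field (B ⧸ Q) := Ideal.Quotient.field Q
  have : Algebra.FiniteType P (B ⧸ Q) :=
    Algebra.FiniteType.of_surjective (Ideal.Quotient.mkₐ P Q) (Ideal.Quotient.mkₐ_surjective P Q)
  have : Module.Finite P (B ⧸ Q) := finite_of_finite_type_of_isJacobsonRing P (B ⧸ Q)
  have : (⊥ : Ideal (B ⧸ Q)).IsMaximal := Ideal.bot_isMaximal
  have h := Ideal.isMaximal_comap_of_isIntegral_of_isMaximal (R := P) (⊥ : Ideal (B ⧸ Q))
  have h2 : (⊥ : Ideal (B ⧸ Q)).comap (algebraMap P (B ⧸ Q)) = Q.comap (algebraMap P B) := by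
    ext x
    rw [Ideal.mem_comap, Ideal.mem_comap, Ideal.mem_bot,
      IsScalarTower.algebraMap_apply P B (B ⧸ Q), Ideal.Quotient.algebraMap_eq,
      Ideal.Quotient.eq_zero_iff_mem]
  rwa [h2] at h

/-- The maximal ideal of the localization is generated by the contraction. -/
theorem map_comap_eq_maximalIdeal {P B : Type} [CommRing P] [CommRing B] [Algebra P B]
    [Algebra.Etale P B] (Q : Ideal B) [Q.IsPrime] :
    (Q.comap (algebraMap P B)).map (algebraMap P (Localization.AtPrime Q)) =
      maximalIdeal (Localization.AtPrime Q) := by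
  have : Q.LiesOver (Q.comap (algebraMap P B)) := ⟨rfl⟩
  let := Localization.AtPrime.algebraOfLiesOver (Q.comap (algebraMap P B)) Q
  have : Algebra.FormallyUnramified B (Localization.AtPrime Q) :=
    Algebra.FormallyUnramified.of_isLocalization Q.primeCompl
  have : Algebra.IsUnramifiedAt P Q :=
    Algebra.FormallyUnramified.comp P B (Localization.AtPrime Q)
  exact ((Algebra.isUnramifiedAt_iff_map_eq P (Q.comap (algebraMap P B)) Q).1 inferInstance).2

/-- ZL4. Let `B` be an étale `ℂ[X_0, X_1]`-algebra, `Q` a maximal ideal of `B` and `R` a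
localization of `B` at `Q`. Then `R` has a regular system of parameters of length two.
Proof: `B` is of finite type over `ℂ`, so `n = Q ∩ ℂ[X_0, X_1]` is maximal (Jacobson rings:
`Ideal.isMaximal_comap_of_isIntegral_of_isMaximal` or
`RingHom.FiniteType` + `isMaximal_comap` for Jacobson rings), `n = (X_0 - a, X_1 - b)` (ZL1). `R` is
flat over `ℂ[X_0, X_1]` (étale algebras are flat, localizations are flat): ZL2, ZL3. The maximal
ideal of `R` is generated by the image of `n`: `Algebra.FormallyUnramified.map_maximalIdeal` for the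
local rings `Localization.AtPrime n → R`, or directly: `B/nB` is étale over the field
`ℂ[X_0, X_1]/n`, so reduced of finite dimension, a product of fields. -/
theorem exists_isPar2_of_etale {B R : Type} [CommRing B] [CommRing R]
    [Algebra (MvPolynomial (Fin 2) ℂ) B] [Algebra.Etale (MvPolynomial (Fin 2) ℂ) B]
    (Q : Ideal B) [Q.IsMaximal] [Algebra B R] [IsLocalization.AtPrime R Q] [IsLocalRing R] :
    ∃ a b : R, IsPar2 R a b := by
  have hn : (Q.comap (algebraMap (MvPolynomial (Fin 2) ℂ) B)).IsMaximal :=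
    isMaximal_comap_of_finiteType Q
  obtain ⟨a, b, hab⟩ := exists_eq_span _ hn
  let : Algebra (MvPolynomial (Fin 2) ℂ) R :=
    ((algebraMap B R).comp (algebraMap (MvPolynomial (Fin 2) ℂ) B)).toAlgebra
  have : IsScalarTower (MvPolynomial (Fin 2) ℂ) B R := IsScalarTower.of_algebraMap_eq fun _ => rfl
  have : Module.Flat (MvPolynomial (Fin 2) ℂ) B := inferInstance
  have : Module.Flat B R := IsLocalization.flat R Q.primeCompl
  have : Module.Flat (MvPolynomial (Fin 2) ℂ) R := Module.Flat.trans (MvPolynomial (Fin 2) ℂ) B R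
  have hX : (X 0 - C a : MvPolynomial (Fin 2) ℂ) ≠ 0 := by
    intro h
    have h1 := congrArg (fun p => MvPolynomial.eval (fun _ => a + 1) p) h
    simp at h1
  obtain ⟨r1, r2⟩ := regular_of_flat (R := R) (X 0 - C a : MvPolynomial (Fin 2) ℂ) (X 1 - C b)
    (fun x hx => (mul_eq_zero.1 hx).resolve_left hX) (fun x hx => dvd_of_dvd_mul a b x hx)
  refine ⟨_, _, ⟨?_, r1, r2⟩⟩
  let e : Localization.AtPrime Q ≃ₐ[B] R := IsLocalization.algEquiv Q.primeCompl _ _
  have h1 : maximalIdeal R = (maximalIdeal (Localization.AtPrime Q)).map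
      (e.toRingEquiv : Localization.AtPrime Q →+* R) :=
    (IsLocalRing.map_ringEquiv_maximalIdeal e.toRingEquiv).symm
  rw [h1, ← map_comap_eq_maximalIdeal (P := MvPolynomial (Fin 2) ℂ) Q, Ideal.map_map, hab,
    Ideal.map_span, Set.image_pair]
  have h2 : ∀ p : MvPolynomial (Fin 2) ℂ,
      ((e.toRingEquiv : Localization.AtPrime Q →+* R).comp
        (algebraMap (MvPolynomial (Fin 2) ℂ) (Localization.AtPrime Q))) p =
      algebraMap (MvPolynomial (Fin 2) ℂ) R p := by
    intro p
    rw [RingHom.comp_apply, IsScalarTower.algebraMap_apply (MvPolynomial (Fin 2) ℂ) B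
      (Localization.AtPrime Q), IsScalarTower.algebraMap_apply (MvPolynomial (Fin 2) ℂ) B R]
    exact e.commutes _
  rw [h2, h2]

/-- ZL5. The local rings at the closed points of a smooth surface over `ℂ`. Proof:
`SmoothOfRelativeDimension.exists_isStandardSmoothOfRelativeDimension` at `x` gives affine opens
`U ⊆ Spec ℂ` and `V ∋ x` with `f.appLE U V` standard smooth of relative dimension two; `Γ(Spec ℂ, U)`
is `ℂ` or zero (it is not zero as `f x ∈ U`: `U = ⊤`); by
`RingHom.IsStandardSmoothOfRelativeDimension.exists_etale_mvPolynomial` (or the `Algebra` version)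
`Γ(X, V)` is étale over `ℂ[X_0, X_1]`. The prime ideal of `x` in `Γ(X, V)` is maximal
(`IsAffineOpen.primeIdealOf_isMaximal_of_isClosed`) and the stalk is the localization
(`IsAffineOpen.isLocalization_stalk`). Apply ZL4. -/
theorem exists_isPar2 {X : Scheme.{0}} (f : X ⟶ Spec (.of ℂ)) [SmoothOfRelativeDimension 2 f]
    (x : X) (hx : IsClosed ({x} : Set X)) :
    ∃ a b : X.presheaf.stalk x, IsPar2 (X.presheaf.stalk x) a b := by
  obtain ⟨U, hU, V, hV, hxV, e, hf⟩ :=
    SmoothOfRelativeDimension.exists_isStandardSmoothOfRelativeDimension (n := 2) (f := f) x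
  have hUt : U = ⊤ := by
    ext y
    have : y = f x := Subsingleton.elim _ _
    subst this
    simpa using e hxV
  subst hUt
  have h1 : ((f.appLE ⊤ V e).hom.comp
      (Scheme.ΓSpecIso (.of ℂ)).commRingCatIsoToRingEquiv.symm.toRingHom).IsStandardSmoothOfRelativeDimension 2 :=
    RingHom.isStandardSmoothOfRelativeDimension_respectsIso.2 _ _ hf
  obtain ⟨g, -, hg⟩ := h1.exists_etale_mvPolynomial
  let : Algebra (MvPolynomial (Fin 2) ℂ) Γ(X, V) := g.toAlgebra
  have : Algebra.Etale (MvPolynomial (Fin 2) ℂ) Γ(X, V) := hg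
  have := hV.primeIdealOf_isMaximal_of_isClosed ⟨x, hxV⟩ hx
  let := TopCat.Presheaf.algebra_section_stalk X.presheaf (U := V) ⟨x, hxV⟩
  have := hV.isLocalization_stalk ⟨x, hxV⟩
  exact exists_isPar2_of_etale (hV.primeIdealOf ⟨x, hxV⟩).asIdeal

end M21.Z
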