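import Pool.Agent.H.MP_21b43d_ag.Z.Dim

/-! # M21 (MP_21b43d), section 3, file Z/Pair: linear forms; the choice of two linear forms. -/

open CategoryTheory AlgebraicGeometry IsLocalRing TopologicalSpace

namespace M21.Z

/-- The properties of the linear forms of a projective scheme over `ℂ` that are used. -/
structure LinForms (X : Scheme.{0}) (L : Type) [AddCommGroup L] [Module ℂ L] where
  /-- the open set where a linear form does not vanish -/
  D : L → X.Opens
  affine : ∀ l, IsAffineOpen (D l)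
  /-- the linear forms vanishing at a point -/
  van : X → Submodule ℂ L
  mem_van : ∀ x l, l ∈ van x ↔ x ∉ D l
  van_ne_top : ∀ x, van x ≠ ⊤
  sep : ∀ x y, IsClosed ({x} : Set X) → y ≠ x → ¬ van x ≤ van y
  ratio : ∀ l₀ l₁, ∃ h : Γ(X, D l₀), X.basicOpen h = D l₀ ⊓ D l₁

variable {X : Scheme.{0}} {L : Type} [AddCommGroup L] [Module ℂ L] (P : LinForms X L)

/-- A linear form that does not vanish at finitely many points. -/
theorem LinForms.exists_forall_mem {F : Set X} (hF : F.Finite) : ∃ l, ∀ x ∈ F, x ∈ P.D l := by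
  have : Finite F := hF
  by_contra hne
  rw [not_exists] at hne
  obtain ⟨x, hx⟩ := Subspace.exists_eq_top_of_iUnion_eq_univ (k := ℂ)
    (p := fun x : F => P.van x) (by
      rw [Set.eq_univ_iff_forall]
      intro l
      have h1 := hne l
      rw [not_forall] at h1
      obtain ⟨x, hx⟩ := h1
      rw [Classical.not_imp] at hx
      exact Set.mem_iUnion.2 ⟨⟨x, hx.1⟩, (P.mem_van x l).2 hx.2⟩)
  exact P.van_ne_top x hx

/-- A linear form that vanishes at the closed point `x₀` and does not vanish at finitely many other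
points. -/
theorem LinForms.exists_forall_mem_of_van {F : Set X} (hF : F.Finite) {x₀ : X}
    (hx₀ : IsClosed ({x₀} : Set X)) (hxF : x₀ ∉ F) : ∃ l, x₀ ∉ P.D l ∧ ∀ x ∈ F, x ∈ P.D l := by
  have : Finite F := hF
  by_contra hne
  rw [not_exists] at hne
  obtain ⟨x, hx⟩ := Subspace.exists_eq_top_of_iUnion_eq_univ (k := ℂ) (E := P.van x₀)
    (p := fun x : F => (P.van x).comap (P.van x₀).subtype) (by
      rw [Set.eq_univ_iff_forall]
      intro l
      have h1 := hne l
      rw [not_and] at h1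
      have h2 := h1 ((P.mem_van _ _).1 l.2)
      rw [not_forall] at h2
      obtain ⟨x, hx⟩ := h2
      rw [Classical.not_imp] at hx
      exact Set.mem_iUnion.2 ⟨⟨x, hx.1⟩, (P.mem_van x l).2 hx.2⟩)
  refine P.sep x₀ x hx₀ (fun h => hxF (by rw [← h]; exact x.2)) fun l hl => ?_
  have h3 : (⟨l, hl⟩ : P.van x₀) ∈ (P.van (x : X)).comap (P.van x₀).subtype := by
    rw [hx]
    trivial
  exact h3

/-- The first linear form: it does not vanish at `z` and the part of `T` where it vanishes is
finite. -/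
theorem LinForms.exists_first [NoetherianSpace X] {T : Set X} (hT : IsClosed T)
    (hdim : ∀ t ∈ T, ∀ y : X, t ⤳ y → y ≠ t → IsClosed ({y} : Set X)) (z : X) :
    ∃ l, z ∈ P.D l ∧ (T \ (P.D l : Set X)).Finite := by
  obtain ⟨S, hS, hSc, hSi, rfl⟩ := NoetherianSpace.exists_finite_set_isClosed_irreducible hT
  have hgen : ∀ t : S, ∃ x : X, IsGenericPoint x (t : Set X) := fun t =>
    QuasiSober.sober (hSi t t.2) (hSc t t.2)
  choose g hg using hgen
  have hfin : (insert z (Set.range g)).Finite := by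
    have : Finite S := hS
    exact (Set.finite_range g).insert z
  obtain ⟨l, hl⟩ := P.exists_forall_mem hfin
  refine ⟨l, hl z (Set.mem_insert _ _), ?_⟩
  refine finite_of_isClosed (hT.sdiff (P.D l).2) ?_
  rintro y ⟨⟨t, ht, hyt⟩, hyl⟩
  have h1 : g ⟨t, ht⟩ ⤳ y := (hg ⟨t, ht⟩).specializes hyt
  have h2 : g ⟨t, ht⟩ ∈ ⋃₀ S := ⟨t, ht, (hg ⟨t, ht⟩).mem⟩
  refine hdim _ h2 y h1 ?_
  rintro rfl
  exact hyl (hl _ (Set.mem_insert_of_mem _ ⟨_, rfl⟩))

end M21.Z
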