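import Pool.Agent.H.MP_21b43d_ag.Z.PF2
import Pool.Agent.H.MP_21b43d_ag.Z.Pair
import Pool.Agent.H.MP_21b43d_ag.Defs

/-! # M21 (MP_21b43d), section 3, file Z/PF3: linear forms and properness of a projective scheme. -/

open CategoryTheory AlgebraicGeometry IsLocalRing TopologicalSpace

namespace M21.Z

/-- Closed points have residue field `ℂ`. -/
theorem ptHom_surjective {X : Scheme.{0}} (f : X ⟶ Spec (.of ℂ)) [LocallyOfFiniteType f] (x : X)
    (hx : IsClosed ({x} : Set X)) : Function.Surjective (ptHom f x) := by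
  have h1 : (residueFieldIsoBase f x hx).inv = Spec.preimage (X.fromSpecResidueField x ≫ f) := by
    apply Spec.map_injective
    rw [SpecMap_residueFieldIsoBase_inv, Spec.map_preimage]
  have h2 := (residueFieldIsoBase f x hx).symm.commRingCatIsoToRingEquiv.surjective
  intro c
  obtain ⟨a, ha⟩ := h2 c
  refine ⟨a, ?_⟩
  rw [← ha]
  exact congrArg (fun g : CommRingCat.of ℂ ⟶ X.residueField x => g.hom a) h1.symm

section

variable {S : Type} [CommRing S] [Algebra ℂ S] (𝒮 : ℕ → Submodule ℂ S) [GradedAlgebra 𝒮]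

theorem pf3_finiteType (s : Finset S) (hgen : Algebra.adjoin ℂ (s : Set S) = ⊤) :
    Algebra.FiniteType (𝒮 0) S := by
  have h1 : Algebra.FiniteType ℂ S := ⟨⟨s, hgen⟩⟩
  have h2 : IsScalarTower ℂ (𝒮 0) S := ⟨fun a b c => smul_mul_assoc a (b : S) c⟩
  exact Algebra.FiniteType.of_restrictScalars_finiteType ℂ (𝒮 0) S

theorem pf3_isProper (h0 : ∀ a ∈ 𝒮 0, ∃ c : ℂ, algebraMap ℂ S c = a) (s : Finset S)
    (hgen : Algebra.adjoin ℂ (s : Set S) = ⊤) :
    IsProper (Proj.toSpecZero 𝒮 ≫ Spec.map (CommRingCat.ofHom (algebraMap ℂ (𝒮 0)))) := by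
  have h1 := pf3_finiteType 𝒮 s hgen
  have h2 : IsClosedImmersion (Spec.map (CommRingCat.ofHom (algebraMap ℂ (𝒮 0)))) := by
    refine IsClosedImmersion.spec_of_surjective _ ?_
    rintro ⟨a, ha⟩
    obtain ⟨c, hc⟩ := h0 a ha
    exact ⟨c, Subtype.ext hc⟩
  infer_instance

end

/-- The elements of degree zero of the polynomial ring are the constants. -/
theorem pf3_zero (N : ℕ) : ∀ a ∈ MvPolynomial.homogeneousSubmodule (Fin (N + 1)) ℂ 0,
    ∃ c : ℂ, algebraMap ℂ (MvPolynomial (Fin (N + 1)) ℂ) c = a := by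
  intro a ha
  have h1 := (MvPolynomial.mem_homogeneousSubmodule 0 a).1 ha
  exact ⟨_, (MvPolynomial.totalDegree_eq_zero_iff_eq_C.1
    (Nat.le_zero.1 h1.totalDegree_le)).symm⟩

/-- The variables of the polynomial ring. -/
noncomputable def pf3_vars (N : ℕ) : Finset (MvPolynomial (Fin (N + 1)) ℂ) :=
  Finset.univ.image MvPolynomial.X

theorem pf3_vars_mem (N : ℕ) : ∀ a ∈ pf3_vars N,
    a ∈ MvPolynomial.homogeneousSubmodule (Fin (N + 1)) ℂ 1 := by
  intro a ha
  obtain ⟨j, -, rfl⟩ := Finset.mem_image.1 ha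
  exact (MvPolynomial.mem_homogeneousSubmodule _ _).2 (MvPolynomial.isHomogeneous_X ℂ j)

theorem pf3_vars_adjoin (N : ℕ) :
    Algebra.adjoin ℂ (pf3_vars N : Set (MvPolynomial (Fin (N + 1)) ℂ)) = ⊤ := by
  rw [pf3_vars, Finset.coe_image, Finset.coe_univ, Set.image_univ]
  exact MvPolynomial.adjoin_range_X

instance pf3_proj_isProper (N : ℕ) : IsProper (projStr N) :=
  pf3_isProper (MvPolynomial.homogeneousSubmodule (Fin (N + 1)) ℂ) (pf3_zero N) (pf3_vars N)
    (pf3_vars_adjoin N)

/-- ZP5. A projective scheme has linear forms. Proof: for a closed immersion `i : X ⟶ Proj 𝒮`: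
`D l = i ⁻¹ᵁ basicOpen 𝒮 l`, affine by `Proj.isAffineOpen_basicOpen`, `van x = vanAt (i x)`, `sep`:
`x` closed, so `i x` is closed; `l` with `x ∈ D l` (ZP2); the value of `l'/l` at `i x` is a constant
because `ptHom g (i x)` is bijective for closed `i x`; so the hypothesis of ZP3 holds by ZP4,
`van x ≤ van y` gives `i x ⤳ i y`, and `y = x` because `i x` is closed and `i` is injective. -/
theorem exists_linForms {X : Scheme.{0}} (f : X ⟶ Spec (.of ℂ)) (hf : IsProjectiveC f) :
    ∃ (L : Type) (_ : AddCommGroup L) (_ : Module ℂ L), Nonempty (LinForms X L) := by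
  obtain ⟨N, i, hi, -⟩ := hf
  obtain ⟨𝒮, h𝒮⟩ : ∃ 𝒮 : ℕ → Submodule ℂ (MvPolynomial (Fin (N + 1)) ℂ),
      𝒮 = MvPolynomial.homogeneousSubmodule (Fin (N + 1)) ℂ := ⟨_, rfl⟩
  subst h𝒮
  have hgp : IsProper (projStr N) := pf3_proj_isProper N
  have hs := pf3_vars_mem N
  have hgen := pf3_vars_adjoin N
  have hinj : Function.Injective i := i.isClosedEmbedding.injective
  refine ⟨MvPolynomial.homogeneousSubmodule (Fin (N + 1)) ℂ 1, inferInstance, inferInstance, ⟨?_⟩⟩
  exact
    { D := fun l => i ⁻¹ᵁ Proj.basicOpen (MvPolynomial.homogeneousSubmodule (Fin (N + 1)) ℂ)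
        (l : MvPolynomial (Fin (N + 1)) ℂ)
      affine := fun l => (Proj.isAffineOpen_basicOpen _ (l : MvPolynomial (Fin (N + 1)) ℂ) l.2
        one_pos).preimage i
      van := fun x => vanAt (MvPolynomial.homogeneousSubmodule (Fin (N + 1)) ℂ) (i x)
      mem_van := fun x l => by
        show (l : MvPolynomial (Fin (N + 1)) ℂ) ∈ (i x).asHomogeneousIdeal ↔
          ¬ ((l : MvPolynomial (Fin (N + 1)) ℂ) ∉ (i x).asHomogeneousIdeal)
        exact not_not.symm
      van_ne_top := fun x => vanAt_ne_top _ (pf3_vars N) hs hgen _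
      sep := by
        intro x y hx hyx hle
        have hx' : IsClosed ({i x} : Set (Proj
            (MvPolynomial.homogeneousSubmodule (Fin (N + 1)) ℂ))) := by
          have h1 := i.isClosedEmbedding.isClosedMap {x} hx
          rw [Set.image_singleton] at h1
          exact h1
        obtain ⟨l, hl⟩ : ∃ l : MvPolynomial.homogeneousSubmodule (Fin (N + 1)) ℂ 1,
            l ∉ vanAt (MvPolynomial.homogeneousSubmodule (Fin (N + 1)) ℂ) (i x) := by
          by_contra hne
          push Not at hne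
          exact vanAt_ne_top _ (pf3_vars N) hs hgen _ (eq_top_iff.2 fun l _ => hne l)
        have h2 : i x ⤳ i y := by
          refine specializes_of_vanAt_le _ (pf3_vars N) hs hgen _ _ l hl (fun l' => ?_) hle
          obtain ⟨h, -, h3⟩ := exists_ratio _ (projStr N) rfl l l'
          obtain ⟨c, hc⟩ := ptHom_surjective (projStr N) (i x) hx'
            ((Proj _).evaluation (Proj.basicOpen _ (l : MvPolynomial (Fin (N + 1)) ℂ)) (i x) hl h)
          exact ⟨c, h3 _ hl c hc.symm⟩
        have h4 : i y ∈ ({i x} : Set (Proj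
            (MvPolynomial.homogeneousSubmodule (Fin (N + 1)) ℂ))) := h2.mem_closed hx' rfl
        exact hyx (hinj h4)
      ratio := by
        intro l₀ l₁
        obtain ⟨h, h1, -⟩ := exists_ratio _ (projStr N) rfl l₀ l₁
        refine ⟨i.app _ h, ?_⟩
        rw [← Scheme.preimage_basicOpen, h1]
        rfl }

/-- ZP6. A projective scheme is proper. -/
theorem isProper_of_isProjectiveC {X : Scheme.{0}} (f : X ⟶ Spec (.of ℂ))
    (hf : IsProjectiveC f) : IsProper f := by
  obtain ⟨N, i, hi, rfl⟩ := hf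
  infer_instance

end M21.Z
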