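import Pool.Agent.H.MP_21b43d_ag.Z.Top
import Pool.Agent.H.MP_21b43d_ag.Z.PF3
import Pool.Agent.H.MP_21b43d_ag.Z.LocB

/-! # M21 (MP_21b43d), section 3, file Z/Main: Theorem Z: condition (Y) for irregular surfaces
without rational curves. -/

open CategoryTheory CategoryTheory.Limits AlgebraicGeometry TopologicalSpace

noncomputable section

namespace M21.Z

variable {X : Scheme.{0}}

theorem isIntegral_range_of_isIntegralElem {A K : Type} [CommRing A] [Field K] (φ : A →+* K)
    {x : K} (h : φ.IsIntegralElem x) : IsIntegral φ.range x := by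
  obtain ⟨p, hp, hpx⟩ := h
  refine ⟨p.map φ.rangeRestrict, hp.map _, ?_⟩
  rw [Polynomial.eval₂_map]
  exact hpx

theorem constHom_top (f : X ⟶ Spec (.of ℂ)) : constHom f ⊤ = cmap f := by
  have h : f.appLE ⊤ ⊤ (le_preimage_top f ⊤) = f.appTop := f.appLE_eq_app
  change ((Scheme.ΓSpecIso (.of ℂ)).inv ≫ f.appLE ⊤ ⊤ (le_preimage_top f ⊤)).hom = _
  rw [h]
  rfl

/-- The cocycle for two opens. -/
def cocycleOfTwo (W₀ W₁ : X.Opens) (c : Γ(X, W₀ ⊓ W₁)) :
    Cocycle (fun b : Bool => bif b then W₁ else W₀) where
  c i j := match i, j with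
    | false, false => 0
    | false, true => c
    | true, false => - resF (inf_comm W₁ W₀).le c
    | true, true => 0
  add := by
    intro i j k V h1 h2 h3
    match i, j, k with
    | false, false, false => simp [resF]
    | false, false, true => simp [resF]
    | false, true, false =>
      change resF h1 c + resF h2 (- resF (inf_comm W₁ W₀).le c) = resF h3 0
      have e1 : resF h2 (- resF (inf_comm W₁ W₀).le c) = - resF h1 c :=
        (map_neg _ _).trans (congrArg Neg.neg (resF_resF _ _ c))
      rw [e1, add_neg_cancel]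
      exact (map_zero _).symm
    | false, true, true => simp [resF]
    | true, false, false => simp [resF]
    | true, false, true =>
      change resF h1 (- resF (inf_comm W₁ W₀).le c) + resF h2 c = resF h3 0
      have e1 : resF h1 (- resF (inf_comm W₁ W₀).le c) = - resF h2 c :=
        (map_neg _ _).trans (congrArg Neg.neg (resF_resF _ _ c))
      rw [e1, neg_add_cancel]
      exact (map_zero _).symm
    | true, true, false => simp [resF]
    | true, true, true => simp [resF]

/-- **Theorem Z, case `T ≠ X`.** -/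
theorem exists_cocycle_ne [IsIntegral X] (f : X ⟶ Spec (.of ℂ)) [IsProper f] [NoetherianSpace X]
    {L : Type} [AddCommGroup L] [Module ℂ L] (P : LinForms X L) (hr : NoRationalCurve f)
    {T : Set X} (hT : IsClosed T)
    (hdim : ∀ t ∈ T, ∀ y : X, t ⤳ y → y ≠ t → IsClosed ({y} : Set X))
    {z : X} (hzT : z ∈ T) (hz : ¬ IsClosed ({z} : Set X)) :
    ∃ (ι : Type) (U : ι → X.Opens) (c : Cocycle U), (∀ x ∈ T, ∃ i, x ∈ U i) ∧ ¬ Dies c z := by
  obtain ⟨W₀, W₁, h0, h1, c, hW₀, hW₁, hcov, key⟩ := exists_two_opens f P hT hdim hzT hz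
  refine ⟨Bool, _, cocycleOfTwo W₀ W₁ c, ?_, ?_⟩
  · intro x hx
    rcases hcov x hx with h | h
    · exact ⟨false, h⟩
    · exact ⟨true, h⟩
  · rintro ⟨d, g, hd, e1, e2⟩
    obtain ⟨e⟩ := key d (g false) (g true) hd.ne'
      (isIntegral_range_of_isIntegralElem _ (e2 false W₀ hW₀ le_rfl h0))
      (isIntegral_range_of_isIntegralElem _ (e2 true W₁ hW₁ le_rfl h1))
      (e1 false true h0 h1)
    let _ : Algebra ℂ (X.residueField z) := (ptHom f z).toAlgebra
    refine hr z e.toRingEquiv fun a => ?_
    have h5 := evaluation_constHom f ⊤ z (show z ∈ (⊤ : X.Opens) from trivial) a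
    rw [constHom_top] at h5
    exact (e.commutes a).trans h5.symm

theorem ptHom_eq (f : X ⟶ Spec (.of ℂ)) (x : X) :
    (X.evaluation ⊤ x trivial).hom.comp (cmap f) = ptHom f x := by
  ext c
  have h := evaluation_constHom f ⊤ x (show x ∈ (⊤ : X.Opens) from trivial) c
  rw [constHom_top] at h
  exact h

/-- The residue field of a closed point is `ℂ`. -/
theorem bijective_of_isClosed (f : X ⟶ Spec (.of ℂ)) [LocallyOfFiniteType f] (x : X)
    (hx : IsClosed ({x} : Set X)) :
    Function.Bijective ((X.evaluation ⊤ x trivial).hom.comp (cmap f)) := by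
  rw [ptHom_eq]
  have h := (residueFieldIsoBase f x hx).symm.commRingCatIsoToRingEquiv.bijective
  have e : (residueFieldIsoBase f x hx).inv = Spec.preimage (X.fromSpecResidueField x ≫ f) := by
    apply Spec.map_injective
    rw [SpecMap_residueFieldIsoBase_inv, Spec.map_preimage]
  change Function.Bijective (Spec.preimage (X.fromSpecResidueField x ≫ f)).hom
  rw [← e]
  exact h

theorem isNoetherian_of_isProper (f : X ⟶ Spec (.of ℂ)) [IsProper f] : IsNoetherian X := by
  have hnoeth : IsLocallyNoetherian X := LocallyOfFiniteType.isLocallyNoetherian f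
  have hcomp : CompactSpace X := QuasiCompact.compactSpace_of_compactSpace f
  exact {}

/-- The local conditions for a smooth projective surface. -/
theorem local_conditions (f : X ⟶ Spec (.of ℂ)) (hf : IsSmoothProjectiveSurface f) :
    IsNoetherian X ∧ IsProper f ∧ ∀ x : X, IsClosed ({x} : Set X) →
      Function.Bijective ((X.evaluation ⊤ x trivial).hom.comp (cmap f)) ∧
      ∃ a b : X.presheaf.stalk x, IsPar2 (X.presheaf.stalk x) a b := by
  have := hf.smooth
  have hprop : IsProper f := isProper_of_isProjectiveC f hf.projective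
  exact ⟨isNoetherian_of_isProper f, hprop,
    fun x hx => ⟨bijective_of_isClosed f x hx, exists_isPar2 f x hx⟩⟩

/-- **Theorem Z.** -/
theorem condY_of_surface (f : X ⟶ Spec (.of ℂ)) (hf : IsSmoothProjectiveSurface f)
    (hq : IrregularSurface X) (hr : NoRationalCurve f) : CondY X := by
  have := hf.integral
  have := hf.smooth
  have hprop : IsProper f := isProper_of_isProjectiveC f hf.projective
  have hN : IsNoetherian X := isNoetherian_of_isProper f
  have hNS : NoetherianSpace X := inferInstance
  obtain ⟨L, _, _, ⟨P⟩⟩ := exists_linForms f hf.projective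
  have hgen : ∀ y : X, genericPoint X ⤳ y := fun y => (genericPoint_spec X).specializes trivial
  intro T hT hTn
  by_cases hTX : genericPoint X ∈ T
  · have hloc : ∀ x : X, IsClosed ({x} : Set X) → IsIntegrallyClosed (X.presheaf.stalk x) := by
      intro x hx
      obtain ⟨a, b, hab⟩ := exists_isPar2 f x hx
      exact hab.isIntegrallyClosed
    obtain ⟨ι, U, c, hU, hc⟩ := exists_cocycle_top f hloc hq hgen
    refine ⟨ι, U, c, fun x _ => ?_, genericPoint X, hTX, hc⟩
    obtain ⟨i, hi⟩ := hU x
    exact Set.mem_iUnion.2 ⟨i, hi⟩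
  · have hdim : ∀ t ∈ T, ∀ y : X, t ⤳ y → y ≠ t → IsClosed ({y} : Set X) := by
      intro t ht y hty hne
      obtain ⟨x, hx, hxc⟩ := IsClosed.exists_closed_singleton (S := closure {y}) isClosed_closure
        ⟨y, subset_closure rfl⟩
      obtain ⟨a, b, hab⟩ := exists_isPar2 f x hxc
      rcases eq_of_specializes a b hab.max (hgen t) hty (specializes_iff_mem_closure.2 hx) with
        h | h | h
      · exact absurd (h ▸ ht) hTX
      · exact absurd h.symm hne
      · rw [h]
        exact hxc
    obtain ⟨z, hzT, hz⟩ : ∃ z ∈ T, ¬ IsClosed ({z} : Set X) := by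
      by_contra hne
      push Not at hne
      exact hTn ⟨finite_of_isClosed hT hne, hne⟩
    obtain ⟨ι, U, c, hU, hc⟩ := exists_cocycle_ne f P hr hT hdim hzT hz
    refine ⟨ι, U, c, fun x hx => ?_, z, hzT, hc⟩
    obtain ⟨i, hi⟩ := hU x hx
    exact Set.mem_iUnion.2 ⟨i, hi⟩

end M21.Z
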