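import Mathlib

/-! # M21 (MP_21b43d), section 3, file Z/Dim: dimension at most two, finiteness of closed sets of
closed points, the residue field of a point of an affine open set. -/

open CategoryTheory AlgebraicGeometry IsLocalRing TopologicalSpace

namespace M21.Z

/-- There is no chain of four points in a noetherian scheme at a point whose maximal ideal has two
generators. -/
theorem eq_of_specializes {X : Scheme.{0}} {ξ z y x : X} [IsNoetherianRing (X.presheaf.stalk x)]
    (a b : X.presheaf.stalk x) (hab : maximalIdeal (X.presheaf.stalk x) = Ideal.span {a, b})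
    (h1 : ξ ⤳ z) (h2 : z ⤳ y) (h3 : y ⤳ x) : ξ = z ∨ z = y ∨ y = x := by
  let F := X.fromSpecStalk x
  have hF : Topology.IsEmbedding F := F.isEmbedding
  have hr : ∀ w : X, w ⤳ x → ∃ p, F p = w := by
    intro w hw
    have : w ∈ Set.range F := by
      rw [Scheme.range_fromSpecStalk]
      exact hw
    exact this
  obtain ⟨pξ, hξ⟩ := hr ξ ((h1.trans h2).trans h3)
  obtain ⟨pz, hz⟩ := hr z (h2.trans h3)
  obtain ⟨py, hy⟩ := hr y h3
  obtain ⟨px, hx⟩ := hr x specializes_rfl
  by_contra hne
  rw [not_or, not_or] at hne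
  obtain ⟨hne1, hne2, hne3⟩ := hne
  have key : ∀ p q : PrimeSpectrum (X.presheaf.stalk x), F p ⤳ F q → F p ≠ F q →
      p.asIdeal.height + 1 ≤ q.asIdeal.height := by
    intro p q hpq hne
    have h4 : p ⤳ q := hF.isInducing.specializes_iff.1 hpq
    have h5 : p ≤ q := (PrimeSpectrum.le_iff_specializes p q).2 h4
    have h6 : p < q := lt_of_le_of_ne h5 (fun h => hne (by rw [h]))
    exact Ideal.height_add_one_le_of_lt_of_isPrime h6
  have e1 := key pξ pz (by rw [hξ, hz]; exact h1) (by rw [hξ, hz]; exact hne1)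
  have e2 := key pz py (by rw [hz, hy]; exact h2) (by rw [hz, hy]; exact hne2)
  have e3 := key py px (by rw [hy, hx]; exact h3) (by rw [hy, hx]; exact hne3)
  have e4 : px.asIdeal.height ≤ 2 := by
    have h7 : px.asIdeal ≤ maximalIdeal (X.presheaf.stalk x) := le_maximalIdeal px.2.ne_top
    refine (Ideal.height_mono h7).trans ?_
    have h8 : maximalIdeal (X.presheaf.stalk x) ∈
        (Ideal.span ({a, b} : Set (X.presheaf.stalk x))).minimalPrimes := by
      rw [← hab, Ideal.minimalPrimes_eq_subsingleton_self]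
      rfl
    have h9 := Ideal.height_le_card_of_mem_minimalPrimes_span (Set.toFinite _) h8
    refine h9.trans ?_
    have h10 := Set.ncard_insert_le a {b}
    rw [Set.ncard_singleton] at h10
    exact_mod_cast h10
  have e5 : (3 : ℕ∞) ≤ px.asIdeal.height := by
    calc (3 : ℕ∞) = 0 + 1 + 1 + 1 := by norm_num
      _ ≤ pξ.asIdeal.height + 1 + 1 + 1 := by gcongr; exact zero_le
      _ ≤ pz.asIdeal.height + 1 + 1 := by gcongr
      _ ≤ py.asIdeal.height + 1 := by gcongr
      _ ≤ px.asIdeal.height := e3
  exact absurd (e5.trans e4) (by norm_num)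

/-- In a noetherian sober space, a closed set of closed points is finite. -/
theorem finite_of_isClosed {X : Type*} [TopologicalSpace X] [NoetherianSpace X] [QuasiSober X]
    {F : Set X} (hF : IsClosed F) (h : ∀ x ∈ F, IsClosed ({x} : Set X)) : F.Finite := by
  obtain ⟨S, hS, hSc, hSi, rfl⟩ := NoetherianSpace.exists_finite_set_isClosed_irreducible hF
  refine hS.sUnion fun t ht => ?_
  obtain ⟨x, hx⟩ := QuasiSober.sober (hSi t ht) (hSc t ht)
  have hxt : x ∈ t := by rw [← hx.def]; exact subset_closure rfl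
  have h1 : closure ({x} : Set X) = {x} := (h x ⟨t, ht, hxt⟩).closure_eq
  rw [← hx.def, h1]
  exact Set.finite_singleton x

section Affine

variable {X : Scheme.{0}} {W : X.Opens} (hW : IsAffineOpen W) {z : X} (hz : z ∈ W)

include hW in
/-- Every element of the residue field of a point of an affine open set is a quotient of values of
sections. -/
theorem exists_evaluation_div (x : X.residueField z) : ∃ a b : Γ(X, W),
    X.evaluation W z hz b ≠ 0 ∧ x * X.evaluation W z hz b = X.evaluation W z hz a := by
  obtain ⟨y, rfl⟩ := Scheme.residue_surjective X z x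
  let := X.presheaf.algebra_section_stalk ⟨z, hz⟩
  have hloc := hW.isLocalization_stalk ⟨z, hz⟩
  obtain ⟨⟨a, b⟩, hab⟩ :=
    @IsLocalization.surj _ _ (hW.primeIdealOf ⟨z, hz⟩).asIdeal.primeCompl _ _ _ hloc y
  refine ⟨a, b, ?_, ?_⟩
  · have h1 : IsUnit (X.presheaf.germ W z hz b) :=
      @IsLocalization.map_units _ _ _ _ _ _ hloc b
    have h2 := h1.map (X.residue z).hom
    exact h2.ne_zero
  · have h1 : y * X.presheaf.germ W z hz b = X.presheaf.germ W z hz a := hab
    have h2 := congrArg (X.residue z) h1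
    rw [map_mul] at h2
    exact h2

/-- The prime ideal of a point is the kernel of the evaluation. -/
theorem mem_primeIdealOf (s : Γ(X, W)) :
    s ∈ (hW.primeIdealOf ⟨z, hz⟩).asIdeal ↔ X.evaluation W z hz s = 0 := by
  rw [hW.primeIdealOf_eq_map_closedPoint ⟨z, hz⟩]
  change X.presheaf.germ W z hz s ∈ maximalIdeal (X.presheaf.stalk z) ↔
    residue (X.presheaf.stalk z) (X.presheaf.germ W z hz s) = 0
  rw [residue_eq_zero_iff]

include hW in
/-- Primes containing the kernel of the evaluation at `z` are specialisations of `z`. -/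
theorem exists_point (P : Ideal Γ(X, W)) [hPp : P.IsPrime]
    (hP : ∀ s : Γ(X, W), X.evaluation W z hz s = 0 → s ∈ P) :
    ∃ (y : X) (hy : y ∈ W), z ⤳ y ∧ ∀ s : Γ(X, W), s ∈ P ↔ X.evaluation W y hy s = 0 := by
  let p : PrimeSpectrum Γ(X, W) := ⟨P, hPp⟩
  have hpW : hW.fromSpec p ∈ W := by
    have : hW.fromSpec p ∈ Set.range hW.fromSpec := ⟨p, rfl⟩
    rw [hW.range_fromSpec] at this
    exact this
  have hinj : Function.Injective hW.fromSpec := hW.fromSpec.isOpenEmbedding.injective
  have hp : hW.primeIdealOf ⟨hW.fromSpec p, hpW⟩ = p :=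
    hinj (hW.fromSpec_primeIdealOf ⟨hW.fromSpec p, hpW⟩)
  refine ⟨hW.fromSpec p, hpW, ?_, fun s => ?_⟩
  · have h1 : hW.primeIdealOf ⟨z, hz⟩ ≤ p := by
      intro s hs
      exact hP s ((mem_primeIdealOf hW hz s).1 hs)
    have h2 := ((PrimeSpectrum.le_iff_specializes _ _).1 h1).map hW.fromSpec.continuous
    rwa [hW.fromSpec_primeIdealOf] at h2
  · rw [← mem_primeIdealOf hW hpW s, hp]

include hW in
/-- The coordinate ring of the reduced closed subscheme with generic point `z` is of dimension at
most one, if all proper specialisations of `z` are closed points. -/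
theorem dimensionLEOne (hdim : ∀ y : X, z ⤳ y → y ≠ z → IsClosed ({y} : Set X)) :
    Ring.DimensionLEOne (Γ(X, W) ⧸ RingHom.ker (X.evaluation W z hz).hom) := by
  refine ⟨fun {P} hP0 hP => ?_⟩
  let q := Ideal.Quotient.mk (RingHom.ker (X.evaluation W z hz).hom)
  have hker : ∀ s : Γ(X, W), X.evaluation W z hz s = 0 → s ∈ P.comap q := by
    intro s hs
    have : q s = 0 := Ideal.Quotient.eq_zero_iff_mem.2 hs
    rw [Ideal.mem_comap, this]
    exact P.zero_mem
  have hPc : (P.comap q).IsPrime := Ideal.comap_isPrime q P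
  obtain ⟨y, hy, hzy, hyP⟩ := exists_point hW hz (P.comap q) hker
  have hne : y ≠ z := by
    rintro rfl
    apply hP0
    rw [eq_bot_iff]
    intro t ht
    obtain ⟨s, rfl⟩ := Ideal.Quotient.mk_surjective t
    have h1 : X.evaluation W y hy s = 0 := (hyP s).1 ht
    exact Ideal.Quotient.eq_zero_iff_mem.2 h1
  have hmax := hW.primeIdealOf_isMaximal_of_isClosed ⟨y, hy⟩ (hdim y hzy hne)
  have heq : (hW.primeIdealOf ⟨y, hy⟩).asIdeal = P.comap q := by
    ext s
    rw [mem_primeIdealOf hW hy s, hyP s]
  rw [heq] at hmax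
  have hq : Function.Surjective q := Ideal.Quotient.mk_surjective
  rcases Ideal.map_eq_top_or_isMaximal_of_surjective q hq hmax with h | h
  · rw [Ideal.map_comap_of_surjective q hq] at h
    exact absurd h hP.ne_top
  · rwa [Ideal.map_comap_of_surjective q hq] at h

end Affine

end M21.Z
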