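import Mathlib

/-! # M21 (MP_21b43d), section 3, file Z/ExtD: a nonzero class of `Ext^1` in the derived category
comes from a short exact sequence that does not split. -/

open CategoryTheory CategoryTheory.Limits CategoryTheory.Pretriangulated

universe w v u

namespace M21.Z

variable {C : Type u} [Category.{v} C] [Abelian C] [HasDerivedCategory.{w} C]

/-- ZE1. An object `E` of the derived category in a triangle `B[0] → E → A[0] → B[0][1]` is
isomorphic to `M[0]` for an object `M` of `C`.
Proof: with the canonical t-structure `DerivedCategory.TStructure.t`, `B[0]` and `A[0]` are `≤ 0`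
and `≥ 0`; so is `E` (`isGE₂`, `isLE₂`), and
`DerivedCategory.exists_iso_singleFunctor_obj_of_isGE_of_isLE` (or a lemma of this kind) gives `M`. -/
theorem exists_iso_single {A B : C} {E : DerivedCategory C}
    (a : (DerivedCategory.singleFunctor C 0).obj B ⟶ E)
    (b : E ⟶ (DerivedCategory.singleFunctor C 0).obj A)
    (g : (DerivedCategory.singleFunctor C 0).obj A ⟶
      ((DerivedCategory.singleFunctor C 0).obj B)⟦(1 : ℤ)⟧)
    (hT : Triangle.mk a b g ∈ distTriang (DerivedCategory C)) :
    ∃ M : C, Nonempty (E ≅ (DerivedCategory.singleFunctor C 0).obj M) := by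
  have h1 : E.IsGE 0 := DerivedCategory.TStructure.t.isGE₂ (Triangle.mk a b g) hT 0
    (inferInstanceAs (((DerivedCategory.singleFunctor C 0).obj B).IsGE 0))
    (inferInstanceAs (((DerivedCategory.singleFunctor C 0).obj A).IsGE 0))
  have h2 : E.IsLE 0 := DerivedCategory.TStructure.t.isLE₂ (Triangle.mk a b g) hT 0
    (inferInstanceAs (((DerivedCategory.singleFunctor C 0).obj B).IsLE 0))
    (inferInstanceAs (((DerivedCategory.singleFunctor C 0).obj A).IsLE 0))
  exact DerivedCategory.exists_iso_singleFunctor_obj_of_isGE_of_isLE E 0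

/-- ZE2. If `single(a) , single(b), g` is a distinguished triangle, then `0 → B → M → A → 0` is
short exact. Proof: `a ≫ b = 0` because the functor `singleFunctor C 0` is faithful and the
composition of two morphisms of a triangle is zero. Then the homology sequence of the triangle
(`DerivedCategory.HomologySequence.exact₁, exact₂, exact₃, mono_homologyMap_mor₁...`) in degrees
`-1, 0, 1`: `H^{-1}(A[0]) = 0 → H^0(B[0]) → H^0(M[0]) → H^0(A[0]) → H^1(B[0]) = 0`, transported by
`DerivedCategory.singleFunctorHomologyIso`-like natural isomorphism `H^0 (M[0]) ≅ M`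
(`homologyFunctor C 0` applied to `singleFunctor C 0` is the identity). -/
theorem shortExact_of_distTriang {A B M : C} (a : B ⟶ M) (b : M ⟶ A)
    (g : (DerivedCategory.singleFunctor C 0).obj A ⟶
      ((DerivedCategory.singleFunctor C 0).obj B)⟦(1 : ℤ)⟧)
    (hT : Triangle.mk ((DerivedCategory.singleFunctor C 0).map a)
      ((DerivedCategory.singleFunctor C 0).map b) g ∈ distTriang (DerivedCategory C)) :
    ∃ w : a ≫ b = 0, (ShortComplex.mk a b w).ShortExact := by
  have w : a ≫ b = 0 := by
    apply (DerivedCategory.singleFunctor C 0).map_injective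
    rw [Functor.map_comp, Functor.map_zero]
    exact comp_distTriang_mor_zero₁₂ _ hT
  have hmono : Mono a := by
    rw [Preadditive.mono_iff_cancel_zero]
    intro X f hf
    apply (DerivedCategory.singleFunctor C 0).map_injective
    rw [Functor.map_zero]
    have hf' : (DerivedCategory.singleFunctor C 0).map f ≫
        (DerivedCategory.singleFunctor C 0).map a = 0 := by
      rw [← Functor.map_comp, hf, Functor.map_zero]
    obtain ⟨k, hk⟩ := Triangle.coyoneda_exact₂ _ (inv_rot_of_distTriang _ hT)
      ((DerivedCategory.singleFunctor C 0).map f) hf'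
    have hge : DerivedCategory.TStructure.t.IsGE
        (((DerivedCategory.singleFunctor C 0).obj A)⟦(-1 : ℤ)⟧) 1 :=
      DerivedCategory.TStructure.t.isGE_shift _ 0 (-1) 1 (by lia)
    have hle : DerivedCategory.TStructure.t.IsLE
        ((DerivedCategory.singleFunctor C 0).obj X) 0 :=
      (inferInstanceAs (((DerivedCategory.singleFunctor C 0).obj X).IsLE 0))
    have hk0 : k = 0 := DerivedCategory.TStructure.t.zero_of_isLE_of_isGE k 0 1 (by lia) hle hge
    rw [hk, hk0]
    exact zero_comp
  have hepi : Epi b := by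
    rw [Preadditive.epi_iff_cancel_zero]
    intro X f hf
    apply (DerivedCategory.singleFunctor C 0).map_injective
    rw [Functor.map_zero]
    have hf' : (DerivedCategory.singleFunctor C 0).map b ≫
        (DerivedCategory.singleFunctor C 0).map f = 0 := by
      rw [← Functor.map_comp, hf, Functor.map_zero]
    obtain ⟨k, hk⟩ := Triangle.yoneda_exact₃ _ hT
      ((DerivedCategory.singleFunctor C 0).map f) hf'
    have hle : DerivedCategory.TStructure.t.IsLE
        (((DerivedCategory.singleFunctor C 0).obj B)⟦(1 : ℤ)⟧) (-1) :=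
      DerivedCategory.TStructure.t.isLE_shift _ 0 1 (-1) (by lia)
    have hge : DerivedCategory.TStructure.t.IsGE
        ((DerivedCategory.singleFunctor C 0).obj X) 0 :=
      (inferInstanceAs (((DerivedCategory.singleFunctor C 0).obj X).IsGE 0))
    have hk0 : k = 0 := DerivedCategory.TStructure.t.zero_of_isLE_of_isGE k (-1) 0 (by lia) hle hge
    rw [hk, hk0]
    exact comp_zero
  refine ⟨w, ?_⟩
  have hex : (ShortComplex.mk a b w).Exact := by
    apply ShortComplex.exact_of_f_is_kernel
    have hlift : ∀ {W' : C} (f : W' ⟶ M) (_ : f ≫ b = 0), ∃ f' : W' ⟶ B, f' ≫ a = f := by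
      intro W' f hf
      have hf' : (DerivedCategory.singleFunctor C 0).map f ≫
          (DerivedCategory.singleFunctor C 0).map b = 0 := by
        rw [← Functor.map_comp, hf, Functor.map_zero]
      obtain ⟨k, hk⟩ := Triangle.coyoneda_exact₂ _ hT
        ((DerivedCategory.singleFunctor C 0).map f) hf'
      obtain ⟨k', hk'⟩ := (DerivedCategory.singleFunctor C 0).map_surjective k
      refine ⟨k', ?_⟩
      apply (DerivedCategory.singleFunctor C 0).map_injective
      rw [Functor.map_comp, hk', hk]
      rfl
    exact KernelFork.IsLimit.ofι' a w (fun {W'} f hf =>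
      ⟨(hlift f hf).choose, (hlift f hf).choose_spec⟩)
  exact ShortComplex.ShortExact.mk' hex hmono hepi

/-- ZE3. A nonzero `g : A[0] ⟶ B[0][1]` gives a short exact sequence `0 → B → M → A → 0` that does
not split. Proof: complete `g` to a triangle `B[0] → E → A[0] → B[0][1]`
(`Pretriangulated.distinguished_cocone_triangle₂`), replace `E` by `M[0]` (ZE1, the isomorphic
triangle is distinguished), `a, b` are `single` of morphisms because the functor is full, ZE2. If
`s ≫ b = 𝟙`, then `single(s) ≫ single(b) = 𝟙` and `g = single(s) ≫ single(b) ≫ g = 0`. -/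
theorem exists_extension {A B : C}
    (g : (DerivedCategory.singleFunctor C 0).obj A ⟶
      ((DerivedCategory.singleFunctor C 0).obj B)⟦(1 : ℤ)⟧) (hg : g ≠ 0) :
    ∃ (M : C) (a : B ⟶ M) (b : M ⟶ A) (w : a ≫ b = 0), (ShortComplex.mk a b w).ShortExact ∧
      ¬ ∃ s : A ⟶ M, s ≫ b = 𝟙 A := by
  obtain ⟨E, a, b, hT⟩ := distinguished_cocone_triangle₂ g
  obtain ⟨M, ⟨e⟩⟩ := exists_iso_single a b g hT
  have hT' : Triangle.mk (a ≫ e.hom) (e.inv ≫ b) g ∈ distTriang (DerivedCategory C) :=
    isomorphic_distinguished _ hT _ (Triangle.isoMk _ _ (Iso.refl _) e.symm (Iso.refl _)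
      (by
        change (a ≫ e.hom) ≫ e.inv = 𝟙 _ ≫ a
        rw [Category.assoc, e.hom_inv_id, Category.comp_id, Category.id_comp])
      (by
        change (e.inv ≫ b) ≫ 𝟙 _ = e.inv ≫ b
        rw [Category.comp_id])
      (by
        change g ≫ (𝟙 ((DerivedCategory.singleFunctor C 0).obj B))⟦(1 : ℤ)⟧' = 𝟙 _ ≫ g
        rw [CategoryTheory.Functor.map_id, Category.comp_id, Category.id_comp]))
  obtain ⟨a', ha'⟩ := (DerivedCategory.singleFunctor C 0).map_surjective (a ≫ e.hom)
  obtain ⟨b', hb'⟩ := (DerivedCategory.singleFunctor C 0).map_surjective (e.inv ≫ b)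
  rw [← ha', ← hb'] at hT'
  obtain ⟨w, hw⟩ := shortExact_of_distTriang a' b' g hT'
  refine ⟨M, a', b', w, hw, ?_⟩
  rintro ⟨s, hs⟩
  apply hg
  have h1 : (DerivedCategory.singleFunctor C 0).map b' ≫ g = 0 :=
    comp_distTriang_mor_zero₂₃ _ hT'
  have h2 : (DerivedCategory.singleFunctor C 0).map s ≫
      (DerivedCategory.singleFunctor C 0).map b' = 𝟙 _ := by
    rw [← Functor.map_comp, hs, CategoryTheory.Functor.map_id]
  rw [← Category.id_comp g, ← h2, Category.assoc, h1, comp_zero]

end M21.Z
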