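import Pool.Agent.H.MP_21b43d_ag.Z.Norm

/-! # M21 (MP_21b43d), section 3, file Z/Frac: a cocycle that does not die (Lemma F). Pure algebra:
`R` is the coordinate ring of an affine curve with function field `K`, `S` its normalisation. -/

open WithZero IsDedekindDomain

namespace M21.Z

/-- A valuation ring contains the integral elements over each subring. -/
theorem mem_of_isIntegral {K A : Type*} [Field K] [CommRing A] [Algebra A K]
    (V : ValuationSubring K) (h : ∀ a : A, algebraMap A K a ∈ V) {x : K} (hx : IsIntegral A x) :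
    x ∈ V := by
  let φ : A →+* V := (algebraMap A K).codRestrict V.toSubring h
  have hxV : IsIntegral V x := by
    obtain ⟨p, hp, hpx⟩ := hx
    refine ⟨p.map φ, hp.map φ, ?_⟩
    rw [Polynomial.eval₂_map]
    exact hpx
  obtain ⟨y, hy⟩ := IsIntegrallyClosed.isIntegral_iff.1 hxV
  rw [← hy]
  exact y.2

section

variable (k : Type*) [Field k] [CharZero k]
variable (R : Type*) [CommRing R] [IsDomain R] [Algebra k R] [Algebra.FiniteType k R]
variable (K : Type*) [Field K] [Algebra k K] [Algebra R K] [IsScalarTower k R K]
  [IsFractionRing R K]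

theorem isFractionRing_integralClosure : IsFractionRing (integralClosure R K) K := by
  have : Algebra.IsAlgebraic R K := IsLocalization.isAlgebraic K (nonZeroDivisors R)
  exact integralClosure.isFractionRing_of_algebraic
    (inj := fun x hx => (FaithfulSMul.algebraMap_injective R K) (hx.trans (map_zero _).symm))

include k in
/-- The normalisation is a Dedekind domain. -/
theorem isDedekindDomain_integralClosure [Ring.DimensionLEOne R] :
    IsDedekindDomain (integralClosure R K) := by
  have : IsNoetherianRing R := Algebra.FiniteType.isNoetherianRing k R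
  have : Module.Finite R (integralClosure R K) := finite_integralClosure k R K
  have : IsNoetherianRing (integralClosure R K) := IsNoetherianRing.of_finite R _
  have : IsFractionRing (integralClosure R K) K := isFractionRing_integralClosure R K
  have : IsIntegrallyClosed (integralClosure R K) :=
    (isIntegrallyClosed_iff_isIntegrallyClosedIn K).2 inferInstance
  have : Ring.DimensionLEOne (integralClosure R K) := inferInstance
  exact { }

include k in
/-- The conductor is not zero. -/
theorem exists_conductor : ∃ f : R, f ≠ 0 ∧ ∀ s ∈ integralClosure R K,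
    ∃ r : R, algebraMap R K r = algebraMap R K f * s := by
  have : Module.Finite R (integralClosure R K) := finite_integralClosure k R K
  obtain ⟨T, hT⟩ := Module.Finite.fg_top (R := R) (M := integralClosure R K)
  classical
  obtain ⟨⟨f, hf⟩, hfT⟩ := IsLocalization.exist_integer_multiples_of_finset (nonZeroDivisors R)
    (T.image (fun s : integralClosure R K => (s : K)))
  refine ⟨f, nonZeroDivisors.ne_zero hf, fun s hs => ?_⟩
  have key : ∀ x : integralClosure R K, x ∈ Submodule.span R (T : Set (integralClosure R K)) →
      ∃ r : R, algebraMap R K r = algebraMap R K f * x := by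
    intro x hx
    induction hx using Submodule.span_induction with
    | mem x hx =>
      obtain ⟨r, hr⟩ := hfT x (Finset.mem_image_of_mem _ hx)
      exact ⟨r, hr.trans (Algebra.smul_def _ _)⟩
    | zero => exact ⟨0, by simp⟩
    | add x y _ _ hx hy =>
      obtain ⟨a, ha⟩ := hx
      obtain ⟨b, hb⟩ := hy
      exact ⟨a + b, by rw [map_add, ha, hb, Subalgebra.coe_add, mul_add]⟩
    | smul a x _ hx =>
      obtain ⟨b, hb⟩ := hx
      exact ⟨a * b, by rw [map_mul, hb, Subalgebra.coe_smul, Algebra.smul_def]; ring⟩
  exact key ⟨s, hs⟩ (by rw [hT]; trivial)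

/-- For every maximal ideal `m` of `R` outside the conductor there are a discrete valuation `v` of
`K` and `c` in `K` with exactly one pole, at `v`, which is simple, and with `m c ⊆ R`. -/
theorem exists_simple_pole [IsAlgClosed k] [Ring.DimensionLEOne R] {f : R}
    (hf : ∀ s ∈ integralClosure R K, ∃ r : R, algebraMap R K r = algebraMap R K f * s)
    (m : Ideal R) [m.IsPrime] (hm : m ≠ ⊥) (hfm : f ∉ m) :
    ∃ (v : Valuation K ℤᵐ⁰) (c : K), v c = exp 1 ∧
      (∀ s ∈ integralClosure R K, v s ≤ 1) ∧
      (∀ x : K, v x ≤ 1 → ∃ a : k, v (x - algebraMap k K a) < 1) ∧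
      (∀ V : ValuationSubring K, (∀ s ∈ integralClosure R K, s ∈ V) →
        c ∈ V ∨ ∀ x, v x ≤ 1 → x ∈ V) ∧
      ∀ r ∈ m, ∃ r' : R, algebraMap R K r' = algebraMap R K r * c := by
  have := isDedekindDomain_integralClosure k R K
  have := isFractionRing_integralClosure R K
  have hinj : Function.Injective (algebraMap R (integralClosure R K)) :=
    FaithfulSMul.algebraMap_injective _ _
  obtain ⟨P, hP, hPm⟩ := Ideal.exists_ideal_over_prime_of_isIntegral_of_isDomain
    (S := integralClosure R K) m (by
      rw [(RingHom.injective_iff_ker_eq_bot _).1 hinj]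
      exact bot_le)
  have hP0 : P ≠ ⊥ := by
    rintro rfl
    apply hm
    rw [← hPm]
    exact Ideal.comap_bot_of_injective _ hinj
  have hPmax : P.IsMaximal := hP.isMaximal hP0
  let v : HeightOneSpectrum (integralClosure R K) := ⟨P, hP, hP0⟩
  obtain ⟨π, hπ⟩ := v.intValuation_exists_uniformizer
  have hπ0 : π ≠ 0 := by
    rintro rfl
    rw [map_zero] at hπ
    exact WithZero.exp_ne_zero hπ.symm
  have hπP : π ∈ P := by
    rw [show P = v.asIdeal from rfl, ← v.intValuation_lt_one_iff_mem, hπ, ← exp_zero, exp_lt_exp]
    norm_num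
  obtain ⟨J, hJ⟩ := Ideal.dvd_iff_le.2 ((Ideal.span_singleton_le_iff_mem _).2 hπP)
  have hJP : ¬ J ≤ P := by
    intro hJP
    have h1 : v.asIdeal ^ 2 ∣ Ideal.span {π} := by
      rw [hJ, pow_two]
      exact mul_dvd_mul (dvd_refl _) (Ideal.dvd_iff_le.2 hJP)
    have h2 := (v.intValuation_le_pow_iff_dvd π 2).2 h1
    rw [hπ, exp_le_exp] at h2
    norm_num at h2
  obtain ⟨a, haJ, haP⟩ := Set.not_subset.1 hJP
  have hπK : (π : K) ≠ 0 := fun h => hπ0 (Subtype.ext h)
  have hfP : algebraMap R (integralClosure R K) f ∉ P := fun h => hfm (by rw [← hPm]; exact h)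
  have hval : ∀ s : integralClosure R K, v.valuation K (s : K) = v.intValuation s :=
    fun s => v.valuation_of_algebraMap (K := K) s
  -- the basic property of `a / π`
  have hq : ∀ s ∈ P, ∃ t : integralClosure R K, (a : K) / (π : K) * (s : K) = (t : K) := by
    intro s hs
    have h1 : a * s ∈ Ideal.span {π} := by
      rw [hJ, mul_comm a s]
      exact Ideal.mul_mem_mul hs haJ
    obtain ⟨t, ht⟩ := Ideal.mem_span_singleton'.1 h1
    refine ⟨t, ?_⟩
    have h2 : (a : K) * (s : K) = (t : K) * (π : K) := by
      have := congrArg (fun z : integralClosure R K => (z : K)) ht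
      simpa using this.symm
    rw [div_mul_eq_mul_div, h2, mul_div_cancel_right₀ _ hπK]
  have hresS : ∀ s : integralClosure R K, ∃ c : k,
      s - algebraMap k (integralClosure R K) c ∈ P := by
    intro s
    have : Module.Finite R (integralClosure R K) := finite_integralClosure k R K
    have : Algebra.FiniteType k (integralClosure R K) :=
      Algebra.FiniteType.trans (A := integralClosure R K) (inferInstance : Algebra.FiniteType k R)
        inferInstance
    let _ : Field (integralClosure R K ⧸ P) := Ideal.Quotient.field P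
    have : Algebra.FiniteType k (integralClosure R K ⧸ P) :=
      Algebra.FiniteType.trans (A := integralClosure R K ⧸ P)
        (inferInstance : Algebra.FiniteType k (integralClosure R K)) inferInstance
    have : Module.Finite k (integralClosure R K ⧸ P) :=
      finite_of_finite_type_of_isJacobsonRing k (integralClosure R K ⧸ P)
    obtain ⟨c, hc⟩ := (IsAlgClosed.algebraMap_bijective_of_isIntegral
      (k := k) (K := integralClosure R K ⧸ P)).2 (Ideal.Quotient.mk P s)
    refine ⟨c, ?_⟩
    rw [← Ideal.Quotient.eq, ← hc]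
    rfl
  refine ⟨v.valuation K, algebraMap R K f * ((a : K) / (π : K)), ?_, ?_, ?_, ?_, ?_⟩
  · have h1 : v.valuation K (a : K) = 1 := by
      rw [hval, v.intValuation_eq_one_iff]
      exact haP
    have h2 : v.valuation K (algebraMap R K f) = 1 := by
      have := hval (algebraMap R (integralClosure R K) f)
      rw [(v.intValuation_eq_one_iff).2 hfP] at this
      exact this
    rw [map_mul, map_div₀, h1, h2, hval, hπ, one_mul, one_div, ← exp_neg]
    norm_num
  · intro s hs
    rw [show s = ((⟨s, hs⟩ : integralClosure R K) : K) from rfl, hval]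
    exact v.intValuation_le_one _
  · intro x hx
    obtain ⟨s, hs⟩ := v.exists_valuation_sub_lt_of_integer hx 1
    obtain ⟨c, hc⟩ := hresS s
    refine ⟨c, ?_⟩
    have h1 : x - algebraMap k K c = (x - algebraMap (integralClosure R K) K s) +
        algebraMap (integralClosure R K) K (s - algebraMap k (integralClosure R K) c) := by
      rw [map_sub, ← IsScalarTower.algebraMap_apply k (integralClosure R K) K]
      ring
    rw [h1]
    refine Valuation.map_add_lt _ ?_ ?_
    · rw [Valuation.map_sub_swap]
      simpa using hs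
    · rw [v.valuation_lt_one_iff_mem]
      exact hc
  · intro V hV
    let φ : integralClosure R K →+* V :=
      { toFun := fun y => ⟨y.1, hV y.1 y.2⟩
        map_one' := rfl
        map_mul' := fun _ _ => rfl
        map_zero' := rfl
        map_add' := fun _ _ => rfl }
    have hunit : ∀ s : integralClosure R K, φ s ∉ IsLocalRing.maximalIdeal V →
        ∃ t ∈ V, (s : K) * t = 1 := by
      intro s hs
      rw [IsLocalRing.mem_maximalIdeal, mem_nonunits_iff, not_not] at hs
      obtain ⟨t, ht⟩ := hs.exists_right_inv
      exact ⟨t, t.2, congrArg (fun z : V => (z : K)) ht⟩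
    by_cases h : P ≤ Ideal.comap φ (IsLocalRing.maximalIdeal V)
    · right
      have hPQ : P = Ideal.comap φ (IsLocalRing.maximalIdeal V) :=
        hPmax.eq_of_le (Ideal.IsPrime.ne_top inferInstance) h
      intro x hx
      obtain ⟨n, d, hnd⟩ := v.exists_primeCompl_mul_eq_of_integer x hx
      have hdQ : φ (d : integralClosure R K) ∉ IsLocalRing.maximalIdeal V := by
        intro hd
        have h3 : (d : integralClosure R K) ∈ P := hPQ.symm.le hd
        exact d.2 h3
      obtain ⟨t, htV, ht⟩ := hunit d hdQ
      have h1 : x = (n : K) * t := by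
        have h2 : x * (((d : integralClosure R K) : K) * t) = (n : K) * t := by
          rw [← mul_assoc]
          exact congrArg (· * t) hnd
        rwa [ht, mul_one] at h2
      rw [h1]
      exact V.mul_mem _ _ (hV _ n.2) htV
    · left
      obtain ⟨s, hsP, hsQ⟩ := Set.not_subset.1 h
      obtain ⟨u, huV, hu⟩ := hunit s hsQ
      obtain ⟨t, ht⟩ := hq s hsP
      have h1 : algebraMap R K f * ((a : K) / (π : K)) = algebraMap R K f * (t : K) * u := by
        rw [← ht, mul_assoc, mul_assoc ((a : K) / (π : K)), hu, mul_one]
      rw [h1]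
      exact V.mul_mem _ _ (V.mul_mem _ _
        (hV _ (algebraMap R (integralClosure R K) f).2) (hV _ t.2)) huV
  · intro r hr
    have hrP : algebraMap R (integralClosure R K) r ∈ P := by
      have : r ∈ Ideal.comap (algebraMap R (integralClosure R K)) P := by rw [hPm]; exact hr
      exact this
    obtain ⟨t, ht⟩ := hq _ hrP
    obtain ⟨r', hr'⟩ := hf (t : K) t.2
    refine ⟨r', ?_⟩
    rw [hr', ← ht]
    have h3 : ((algebraMap R (integralClosure R K) r : integralClosure R K) : K) =
        algebraMap R K r := rfl
    rw [h3]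
    ring

/-- **Lemma F.** Let `R` be the coordinate ring of an affine curve with function field `K` and `m`
a maximal ideal outside the conductor. There is `c` in `K` with `m c ⊆ R` such that for every
subring `R₁` of `K` for which every valuation ring of `K` containing the constants contains `R` or
`R₁`: if `d c = g₀ - g₁` with `d ≠ 0`, `g₀` integral over `R`, `g₁` integral over `R₁`, then `K` is
the rational function field. -/
theorem exists_cocycle [IsAlgClosed k] [Ring.DimensionLEOne R] {f : R}
    (hf : ∀ s ∈ integralClosure R K, ∃ r : R, algebraMap R K r = algebraMap R K f * s)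
    (m : Ideal R) [m.IsPrime] (hm : m ≠ ⊥) (hfm : f ∉ m) :
    ∃ c : K, (∀ r ∈ m, ∃ r' : R, algebraMap R K r' = algebraMap R K r * c) ∧
      ∀ R₁ : Subring K,
        (∀ V : ValuationSubring K, (∀ a : k, algebraMap k K a ∈ V) →
          (∀ r : R, algebraMap R K r ∈ V) ∨ R₁ ≤ V.toSubring) →
        ∀ (d : ℕ) (g₀ g₁ : K), d ≠ 0 → IsIntegral R g₀ → IsIntegral R₁ g₁ →
          g₀ - g₁ = d * c → Nonempty (RatFunc k ≃ₐ[k] K) := by
  obtain ⟨v, c, hc, hvS, hres, hVc, hmc⟩ := exists_simple_pole k R K hf m hm hfm
  refine ⟨c, hmc, fun R₁ hcov d g₀ g₁ hd hg₀ hg₁ hg => ?_⟩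
  have : CharZero K := charZero_of_injective_algebraMap (algebraMap k K).injective
  have hkS : ∀ a : k, algebraMap k K a ∈ integralClosure R K := fun a => by
    rw [IsScalarTower.algebraMap_apply k R K]
    exact isIntegral_algebraMap
  have hvd : v (d : K) = 1 := by
    have hd' : (d : K) ≠ 0 := Nat.cast_ne_zero.2 hd
    have h1 : v (d : K) ≤ 1 := hvS _ (by rw [← map_natCast (algebraMap k K)]; exact hkS _)
    have h2 : v ((d : K)⁻¹) ≤ 1 :=
      hvS _ (by rw [← map_natCast (algebraMap k K), ← map_inv₀]; exact hkS _)
    refine le_antisymm h1 ?_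
    calc (1 : ℤᵐ⁰) = v ((d : K) * (d : K)⁻¹) := by rw [mul_inv_cancel₀ hd', map_one]
      _ = v (d : K) * v ((d : K)⁻¹) := map_mul _ _ _
      _ ≤ v (d : K) * 1 := mul_le_mul_right h2 _
      _ = v (d : K) := mul_one _
  have hvg : v g₁ = exp 1 := by
    have h1 : g₁ = g₀ - d * c := by rw [← hg]; ring
    have h2 : v (d * c) = exp 1 := by rw [map_mul, hvd, hc, one_mul]
    have h3 : v g₀ < v (d * c) := by
      rw [h2]
      refine (hvS g₀ hg₀).trans_lt ?_
      rw [← exp_zero, exp_lt_exp]
      norm_num
    rw [h1, Valuation.map_sub_swap, Valuation.map_sub_eq_of_lt_left _ h3, h2]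
  have htr : Transcendental k g₁ := by
    intro halg
    have h1 : IsIntegral R g₁ := (isAlgebraic_iff_isIntegral.1 halg).tower_top
    have h2 := hvS g₁ h1
    rw [hvg, ← exp_zero, exp_le_exp] at h2
    norm_num at h2
  have hV : ∀ V : ValuationSubring K, (∀ a : k, algebraMap k K a ∈ V) →
      g₁ ∈ V ∨ ∀ x, v x ≤ 1 → x ∈ V := by
    intro V hV
    rcases hcov V hV with h | h
    · rcases hVc V (fun s hs => mem_of_isIntegral V h hs) with h1 | h1
      · left
        have h2 : g₁ = g₀ - d * c := by rw [← hg]; ring
        rw [h2]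
        exact sub_mem (mem_of_isIntegral V h hg₀) (V.mul_mem _ _ (natCast_mem V d) h1)
      · exact Or.inr h1
    · exact Or.inl (mem_of_isIntegral V (fun a => h a.2) hg₁)
  exact nonempty_ratFunc_of_pole v hres hvg htr hV (isAlgebraic_adjoin k R K htr)

end

end M21.Z
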