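import Pool.Agent.H.MP_21b43d_ag.Z.Pole

/-! # M21 (MP_21b43d), section 3, file Z/Norm: finiteness of the normalisation of a finitely
generated domain over a field of characteristic zero. Pure algebra. -/

open WithZero

namespace M21.Z

section Norm

variable (k : Type*) [Field k]
variable (R : Type*) [CommRing R] [IsDomain R] [Algebra k R] [Algebra.FiniteType k R]
variable (K : Type*) [Field K] [Algebra k K] [Algebra R K] [IsScalarTower k R K]
  [IsFractionRing R K]

include R in
/-- `K` is algebraic over `k[g]` for every transcendental `g`. -/
theorem isAlgebraic_adjoin [Ring.DimensionLEOne R] {g : K} (hg : Transcendental k g) :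
    Algebra.IsAlgebraic (Algebra.adjoin k {g}) K := by
  have h1 : Algebra.trdeg k R ≤ 1 := trdeg_le_one k R
  have h2 : Cardinal.lift (Algebra.trdeg k K) ≤ 1 := by
    have h := lift_trdeg_add_eq k R K
    have : Algebra.IsAlgebraic R K := IsLocalization.isAlgebraic K (nonZeroDivisors R)
    have h0 : Algebra.trdeg R K = 0 := trdeg_eq_zero
    rw [h0, Cardinal.lift_zero, add_zero] at h
    rw [← h]
    exact Cardinal.lift_le_one_iff.2 h1
  have h3 : Algebra.trdeg k K ≤ 1 := Cardinal.lift_le_one_iff.1 h2
  have h4 : AlgebraicIndependent k (fun _ : Unit => g) :=
    algebraicIndependent_unique_type_iff.2 hg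
  have h5 : IsTranscendenceBasis k (fun _ : Unit => g) := by
    refine h4.isTranscendenceBasis_of_lift_trdeg_le_of_finite ?_
    simpa using h3
  have h6 := h5.isAlgebraic
  rwa [Set.range_const] at h6

/-- The normalisation of a finitely generated domain over a field of characteristic zero is a
finite module. -/
theorem finite_integralClosure [CharZero k] : Module.Finite R (integralClosure R K) := by
  obtain ⟨s, φ, hinj, hfin⟩ := exists_finite_inj_algHom_of_fg k R
  let A := MvPolynomial (Fin s) k
  let _ : Algebra A R := φ.toRingHom.toAlgebra
  let _ : Algebra A K := ((algebraMap R K).comp φ.toRingHom).toAlgebra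
  have : IsScalarTower k A R := IsScalarTower.of_algebraMap_eq fun c => (φ.commutes c).symm
  have : IsScalarTower A R K := IsScalarTower.of_algebraMap_eq fun c => rfl
  have : IsScalarTower k A K := IsScalarTower.of_algebraMap_eq fun c => by
    rw [IsScalarTower.algebraMap_apply A R K, ← IsScalarTower.algebraMap_apply k A R,
      ← IsScalarTower.algebraMap_apply k R K]
  have hinj' : Function.Injective (algebraMap A R) := hinj
  have hinjK : Function.Injective (algebraMap A K) :=
    (IsFractionRing.injective R K).comp hinj
  have : FaithfulSMul A K := (faithfulSMul_iff_algebraMap_injective A K).2 hinjK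
  have : Module.Finite A R := hfin
  let _ : Algebra (FractionRing A) K := FractionRing.liftAlgebra A K
  have : IsScalarTower k (FractionRing A) K := IsScalarTower.of_algebraMap_eq fun c => by
    rw [IsScalarTower.algebraMap_apply k A (FractionRing A),
      ← IsScalarTower.algebraMap_apply A (FractionRing A) K,
      ← IsScalarTower.algebraMap_apply k A K]
  have : Algebra.IsAlgebraic R K := IsLocalization.isAlgebraic K (nonZeroDivisors R)
  have : Algebra.IsAlgebraic A K := Algebra.IsAlgebraic.trans A R K
  have : Algebra.IsAlgebraic (FractionRing A) K :=
    (IsFractionRing.comap_isAlgebraic_iff (A := A) (K := FractionRing A) (C := K)).1 this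
  have : Algebra.EssFiniteType R K := Algebra.EssFiniteType.of_isLocalization K (nonZeroDivisors R)
  have : Algebra.EssFiniteType k K := Algebra.EssFiniteType.comp k R K
  have : Algebra.EssFiniteType (FractionRing A) K := Algebra.EssFiniteType.of_comp k _ K
  have : FiniteDimensional (FractionRing A) K :=
    Algebra.finite_of_essFiniteType_of_isAlgebraic
  have : CharZero (FractionRing A) := charZero_of_injective_algebraMap
    (algebraMap k (FractionRing A)).injective
  have : IsIntegralClosure (integralClosure R K) A K :=
    { algebraMap_injective := Subtype.val_injective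
      isIntegral_iff := fun {x} => ⟨fun h => ⟨⟨x, h.tower_top⟩, rfl⟩, by
        rintro ⟨y, rfl⟩
        exact isIntegral_trans (R := A) (A := R) y.1 y.2⟩ }
  have : Module.Finite A (integralClosure R K) :=
    IsIntegralClosure.finite A (FractionRing A) K (integralClosure R K)
  exact Module.Finite.of_restrictScalars_finite A R _

end Norm

end M21.Z
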