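import Pool.Agent.H.MP_21b43d_ag.Z.Cst

/-! # M21 (MP_21b43d), section 3, file Z/Normal: normality: integral elements of the function field
are sections. -/

open CategoryTheory AlgebraicGeometry IsLocalRing TopologicalSpace

namespace M21.Z

variable {X : Scheme.{0}}

theorem evaluation_injective [IsIntegral X] {z : X} (hzg : ∀ y : X, z ⤳ y) {V : X.Opens}
    (hz : z ∈ V) : Function.Injective (X.evaluation V z hz) := by
  rw [injective_iff_map_eq_zero]
  intro s hs
  rw [← basicOpen_eq_bot_iff]
  rw [Scheme.evaluation_eq_zero_iff_notMem_basicOpen] at hs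
  rw [← Opens.not_nonempty_iff_eq_bot]
  rintro ⟨y, hy⟩
  exact hs ((hzg y).mem_open (X.basicOpen s).2 hy)

theorem exists_section [IsIntegral X] (f : X ⟶ Spec (.of ℂ)) [LocallyOfFiniteType f]
    (hloc : ∀ x : X, IsClosed ({x} : Set X) → IsIntegrallyClosed (X.presheaf.stalk x))
    {z : X} (hzg : ∀ y : X, z ⤳ y) {V : X.Opens} (hV : IsAffineOpen V) (hz : z ∈ V)
    (g : X.residueField z) (hg : (X.evaluation V z hz).hom.IsIntegralElem g) :
    ∃ s : Γ(X, V), X.evaluation V z hz s = g := by
  have hne : Nonempty V := ⟨⟨z, hz⟩⟩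
  have hinj := evaluation_injective hzg hz
  let _ : Algebra Γ(X, V) (X.residueField z) := (X.evaluation V z hz).hom.toAlgebra
  have : FaithfulSMul Γ(X, V) (X.residueField z) :=
    (faithfulSMul_iff_algebraMap_injective _ _).2 hinj
  have : IsFractionRing Γ(X, V) (X.residueField z) := by
    refine IsFractionRing.of_field _ _ fun x => ?_
    obtain ⟨a, b, hb, hab⟩ := exists_evaluation_div hV hz x
    refine ⟨a, b, ?_⟩
    change x = X.evaluation V z hz a / X.evaluation V z hz b
    rw [← hab, mul_div_cancel_right₀ _ hb]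
  have hclosed : IsIntegrallyClosed Γ(X, V) := by
    refine IsIntegrallyClosed.of_localization_maximal fun P _ hPm => ?_
    have hPp : P.IsPrime := hPm.isPrime
    obtain ⟨y, hy, hzy, hyP⟩ := exists_point hV hz P (fun s hs => by
      have : s = 0 := hinj (hs.trans (map_zero _).symm)
      rw [this]
      exact P.zero_mem)
    have hPy : P = (hV.primeIdealOf ⟨y, hy⟩).asIdeal := by
      ext s
      rw [hyP s, mem_primeIdealOf hV hy s]
    have hyc : IsClosed ({y} : Set X) := by
      by_contra hyc
      apply not_isMaximal_ker f hV hy hyc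
      have h3 : RingHom.ker (X.evaluation V y hy).hom = P := by
        ext s
        rw [hyP s]
        rfl
      rw [h3]
      exact hPm
    have h1 := hloc y hyc
    subst hPy
    let := X.presheaf.algebra_section_stalk ⟨y, hy⟩
    have h2 := hV.isLocalization_stalk ⟨y, hy⟩
    exact h1.of_equiv (@IsLocalization.algEquiv _ _ (hV.primeIdealOf ⟨y, hy⟩).asIdeal.primeCompl
      (X.presheaf.stalk y) _ _ h2 _ _ _ _).toRingEquiv
  obtain ⟨s, hs⟩ := (isIntegrallyClosed_iff (X.residueField z)).1 hclosed (x := g) hg
  exact ⟨s, hs⟩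

end M21.Z
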