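import Mathlib

/-! # M21 (MP_21b43d), section 3, file Z/PF1: the linear forms of a projective scheme. -/

open CategoryTheory AlgebraicGeometry IsLocalRing TopologicalSpace

namespace M21.Z

section

variable {S : Type} [CommRing S] [Algebra ℂ S] (𝒮 : ℕ → Submodule ℂ S) [GradedAlgebra 𝒮]

/-- ZP1. The linear forms vanishing at a point. -/
def vanAt (x : Proj 𝒮) : Submodule ℂ (𝒮 1) where
  carrier := {l | (l : S) ∈ x.asHomogeneousIdeal}
  add_mem' := fun {a b} ha hb => x.asHomogeneousIdeal.toIdeal.add_mem ha hb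
  zero_mem' := x.asHomogeneousIdeal.toIdeal.zero_mem
  smul_mem' := fun c {l} hl => by
    change c • (l : S) ∈ x.asHomogeneousIdeal.toIdeal
    rw [Algebra.smul_def]
    exact x.asHomogeneousIdeal.toIdeal.mul_mem_left _ hl

/-- ZP2. Some linear form does not vanish at `x`. Proof: `Proj.iSup_basicOpen_eq_top'` for the
family of the elements of `s` (they generate `S` over `𝒮 0`, because they generate it over `ℂ`). -/
theorem vanAt_ne_top (s : Finset S) (hs : ∀ a ∈ s, a ∈ 𝒮 1)
    (hgen : Algebra.adjoin ℂ (s : Set S) = ⊤) (x : Proj 𝒮) : vanAt 𝒮 x ≠ ⊤ := by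
  have hadj : Algebra.adjoin (𝒮 0) (Set.range fun i : s => (i : S)) = ⊤ := by
    rw [eq_top_iff]
    rintro a -
    have ha : a ∈ Algebra.adjoin ℂ (s : Set S) := by rw [hgen]; trivial
    induction ha using Algebra.adjoin_induction with
    | mem a ha => exact Algebra.subset_adjoin ⟨⟨a, ha⟩, rfl⟩
    | algebraMap c =>
      have h := SetLike.algebraMap_mem_graded 𝒮 c
      exact (Algebra.adjoin (𝒮 0) _).algebraMap_mem (⟨_, h⟩ : 𝒮 0)
    | add a b _ _ iha ihb => exact add_mem iha ihb
    | mul a b _ _ iha ihb => exact mul_mem iha ihb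
  have h := Proj.iSup_basicOpen_eq_top' 𝒮 (fun i : s => (i : S)) (fun i => ⟨1, hs _ i.2⟩) hadj
  have hx : x ∈ (⨆ i : s, Proj.basicOpen 𝒮 (i : S)) := by rw [h]; trivial
  rw [Opens.mem_iSup] at hx
  obtain ⟨i, hi⟩ := hx
  intro htop
  have h1 : (⟨(i : S), hs _ i.2⟩ : 𝒮 1) ∈ vanAt 𝒮 x := by rw [htop]; trivial
  exact hi h1

/-- ZP3. If for some linear form `l` not vanishing at `x` every linear form is congruent to a
multiple of `l` modulo the forms vanishing at `x`, and all linear forms vanishing at `x` vanish at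
`y`, then `x ⤳ y`. Proof: Every `a ∈ 𝒮 n` is `c • l ^ n + r` with `r` in the ideal `J` generated by
`vanAt 𝒮 x` (true for products of `n` elements of `s`, so for their linear combinations; the
homogeneous component of degree `n` of the elements of `adjoin ℂ s`; it is simplest to prove: the
set of all `a ∈ S` such that all homogeneous components are of this form is a subalgebra that
contains `s`). If `a ∈ 𝔭_x` is homogeneous, then `c • l ^ n ∈ 𝔭_x` (as `J ⊆ 𝔭_x`), so `c = 0` and
`a ∈ J ⊆ 𝔭_y`. So `𝔭_x ≤ 𝔭_y` (homogeneous ideals). -/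
theorem specializes_of_vanAt_le (s : Finset S) (hs : ∀ a ∈ s, a ∈ 𝒮 1)
    (hgen : Algebra.adjoin ℂ (s : Set S) = ⊤) (x y : Proj 𝒮) (l : 𝒮 1)
    (hl : (l : S) ∉ x.asHomogeneousIdeal)
    (hc : ∀ l' : 𝒮 1, ∃ c : ℂ, l' - c • l ∈ vanAt 𝒮 x) (h : vanAt 𝒮 x ≤ vanAt 𝒮 y) : x ⤳ y := by
  classical
  let J : Ideal S := Ideal.span ((fun l' : 𝒮 1 => (l' : S)) '' (vanAt 𝒮 x : Set (𝒮 1)))
  have hJx : J ≤ x.asHomogeneousIdeal.toIdeal := by
    refine Ideal.span_le.2 ?_
    rintro _ ⟨l', hl', rfl⟩
    exact hl'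
  have hJy : J ≤ y.asHomogeneousIdeal.toIdeal := by
    refine Ideal.span_le.2 ?_
    rintro _ ⟨l', hl', rfl⟩
    exact h hl'
  -- every element is a polynomial in `l` modulo `J`
  have key : ∀ a : S, ∃ P : Polynomial ℂ, a - Polynomial.aeval (l : S) P ∈ J := by
    intro a
    have ha : a ∈ Algebra.adjoin ℂ (s : Set S) := by rw [hgen]; trivial
    induction ha using Algebra.adjoin_induction with
    | mem a ha =>
      obtain ⟨c, hc'⟩ := hc ⟨a, hs a ha⟩
      refine ⟨Polynomial.C c * Polynomial.X, ?_⟩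
      refine Ideal.subset_span ⟨_, hc', ?_⟩
      simp [Algebra.smul_def]
    | algebraMap c => exact ⟨Polynomial.C c, by simp⟩
    | add a b _ _ iha ihb =>
      obtain ⟨P, hP⟩ := iha
      obtain ⟨Q, hQ⟩ := ihb
      refine ⟨P + Q, ?_⟩
      rw [map_add, add_sub_add_comm]
      exact J.add_mem hP hQ
    | mul a b _ _ iha ihb =>
      obtain ⟨P, hP⟩ := iha
      obtain ⟨Q, hQ⟩ := ihb
      refine ⟨P * Q, ?_⟩
      have e : a * b - Polynomial.aeval (l : S) (P * Q) =
          a * (b - Polynomial.aeval (l : S) Q) +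
            Polynomial.aeval (l : S) Q * (a - Polynomial.aeval (l : S) P) := by
        rw [map_mul]; ring
      rw [e]
      exact J.add_mem (J.mul_mem_left _ hQ) (J.mul_mem_left _ hP)
  -- the components of a polynomial in `l`
  have hcomp : ∀ (P : Polynomial ℂ) (n : ℕ),
      (DirectSum.decompose 𝒮 (Polynomial.aeval (l : S) P) n : S) = P.coeff n • (l : S) ^ n := by
    intro P n
    have hmem : ∀ (m : ℕ) (c : ℂ), c • (l : S) ^ m ∈ 𝒮 m := by
      intro m c
      refine (𝒮 m).smul_mem c ?_
      have := SetLike.pow_mem_graded m l.2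
      simpa using this
    induction P using Polynomial.induction_on' with
    | add P Q hP hQ =>
      rw [map_add, DirectSum.decompose_add, DirectSum.add_apply, Submodule.coe_add, hP, hQ,
        Polynomial.coeff_add, add_smul]
    | monomial m c =>
      rw [Polynomial.aeval_monomial, ← Algebra.smul_def, Polynomial.coeff_monomial]
      by_cases hm : m = n
      · subst hm
        rw [if_pos rfl, DirectSum.decompose_of_mem_same 𝒮 (hmem m c)]
      · rw [if_neg hm, DirectSum.decompose_of_mem_ne 𝒮 (hmem m c) hm, zero_smul]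
  have hle : x.asHomogeneousIdeal.toIdeal ≤ y.asHomogeneousIdeal.toIdeal := by
    intro a ha
    obtain ⟨P, hP⟩ := key a
    have h1 : Polynomial.aeval (l : S) P ∈ x.asHomogeneousIdeal.toIdeal := by
      have := x.asHomogeneousIdeal.toIdeal.sub_mem ha (hJx hP)
      rwa [sub_sub_cancel] at this
    have hP0 : P = 0 := by
      ext n
      rw [Polynomial.coeff_zero]
      by_contra hne
      have h2 := x.asHomogeneousIdeal.isHomogeneous n h1
      rw [hcomp] at h2
      have h3 : (l : S) ^ n ∈ x.asHomogeneousIdeal.toIdeal := by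
        have h4 := x.asHomogeneousIdeal.toIdeal.mul_mem_left (algebraMap ℂ S (P.coeff n)⁻¹) h2
        rwa [Algebra.smul_def, ← mul_assoc, ← map_mul, inv_mul_cancel₀ hne, map_one,
          one_mul] at h4
      exact hl (x.isPrime.mem_of_pow_mem n h3)
    rw [hP0, map_zero, sub_zero] at hP
    exact hJy hP
  rw [specializes_iff_mem_closure]
  exact (ProjectiveSpectrum.le_iff_mem_closure (𝒜 := 𝒮) x y).1 hle

end

end M21.Z
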