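import Pool.Agent.H.MP_21b43d_ag.Z.PF1
import Pool.Agent.H.MP_21b43d_ag.Z.Center

/-! # M21 (MP_21b43d), section 3, file Z/PF2: the ratio of two linear forms as a section. -/

open CategoryTheory AlgebraicGeometry IsLocalRing TopologicalSpace

namespace M21.Z

variable {S : Type} [CommRing S] [Algebra ℂ S] (𝒮 : ℕ → Submodule ℂ S) [GradedAlgebra 𝒮]

/-- Auxiliary: the structure map over `D₊(f)`. -/
theorem PF2_ι_toSpecZero {m : ℕ} {g : S} (hg : g ∈ 𝒮 m) (hm : 0 < m) :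
    (Proj.basicOpen 𝒮 g).ι ≫ Proj.toSpecZero 𝒮 =
      Proj.basicOpenToSpec 𝒮 g ≫
        Spec.map (CommRingCat.ofHom (HomogeneousLocalization.fromZeroRingHom 𝒮 _)) := by
  rw [← Proj.awayι_toSpecZero 𝒮 g hg hm, ← Proj.basicOpenIsoSpec_inv_ι, ← Category.assoc,
    ← Category.assoc, ← Proj.basicOpenIsoSpec_hom 𝒮 g hg hm, Iso.hom_inv_id, Category.id_comp]

/-- Auxiliary: the value of a fraction is zero iff the numerator vanishes. -/
theorem PF2_mem_basicOpen {g : S} (z : HomogeneousLocalization.NumDenSameDeg 𝒮 (.powers g))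
    (x : Proj 𝒮) (hx : x ∈ Proj.basicOpen 𝒮 g) :
    x ∈ (Proj 𝒮).basicOpen (Proj.awayToSection 𝒮 g (HomogeneousLocalization.mk z)) ↔
      (z.num : S) ∉ x.asHomogeneousIdeal := by
  rw [Scheme.mem_basicOpen _ _ x hx]
  have h1 : (Proj 𝒮).presheaf.germ (Proj.basicOpen 𝒮 g) x hx
      (Proj.awayToSection 𝒮 g (HomogeneousLocalization.mk z)) =
      (Proj.stalkIso 𝒮 x).inv (HomogeneousLocalization.mapId 𝒮 (Submonoid.powers_le.mpr hx)
        (HomogeneousLocalization.mk z)) :=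
    congr($(ProjectiveSpectrum.Proj.awayToSection_germ 𝒮 g x hx) (HomogeneousLocalization.mk z))
  rw [h1]
  have h2 : IsUnit ((Proj.stalkIso 𝒮 x).inv
      (HomogeneousLocalization.mapId 𝒮 (Submonoid.powers_le.mpr hx)
        (HomogeneousLocalization.mk z))) ↔
      IsUnit (HomogeneousLocalization.mapId 𝒮
        (show Submonoid.powers g ≤ x.asHomogeneousIdeal.toIdeal.primeCompl from
          Submonoid.powers_le.mpr hx) (HomogeneousLocalization.mk z)) := by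
    exact MulEquiv.isUnit_map (Proj.stalkIso 𝒮 x).symm.commRingCatIsoToRingEquiv
  rw [h2, ← HomogeneousLocalization.isUnit_iff_isUnit_val, HomogeneousLocalization.map_mk,
    HomogeneousLocalization.val_mk, Localization.mk_eq_mk',
    IsLocalization.AtPrime.isUnit_mk'_iff]
  rfl

/-- Auxiliary: the value of a constant. -/
theorem PF2_eval_const (f : Proj 𝒮 ⟶ Spec (.of ℂ))
    (hf : f = Proj.toSpecZero 𝒮 ≫ Spec.map (CommRingCat.ofHom (algebraMap ℂ (𝒮 0))))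
    {m : ℕ} {g : S} (hg : g ∈ 𝒮 m) (hm : 0 < m) (x : Proj 𝒮) (hx : x ∈ Proj.basicOpen 𝒮 g)
    (c : ℂ) :
    (Proj 𝒮).evaluation (Proj.basicOpen 𝒮 g) x hx (Proj.awayToSection 𝒮 g
      (HomogeneousLocalization.fromZeroRingHom 𝒮 _ (algebraMap ℂ (𝒮 0) c))) = ptHom f x c := by
  have key : Spec.preimage ((Proj 𝒮).fromSpecResidueField x ≫ f) =
      CommRingCat.ofHom (algebraMap ℂ (𝒮 0)) ≫
        CommRingCat.ofHom (HomogeneousLocalization.fromZeroRingHom 𝒮 _) ≫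
        Proj.awayToSection 𝒮 g ≫ (Proj 𝒮).evaluation (Proj.basicOpen 𝒮 g) x hx := by
    apply Spec.map_injective
    have e1 : (Proj 𝒮).fromSpecResidueField x =
        Spec.map ((Proj 𝒮).residue x) ≫ (Proj.basicOpen 𝒮 g).fromSpecStalkOfMem x hx ≫
          (Proj.basicOpen 𝒮 g).ι := by
      rw [Scheme.Opens.fromSpecStalkOfMem_ι]
      rfl
    rw [Spec.map_preimage, hf, e1, Category.assoc, Category.assoc,
      ← Category.assoc (Proj.basicOpen 𝒮 g).ι, PF2_ι_toSpecZero 𝒮 hg hm, Proj.basicOpenToSpec]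
    simp only [Spec.map_comp, Category.assoc]
    rw [← Category.assoc ((Proj.basicOpen 𝒮 g).fromSpecStalkOfMem x hx),
      Scheme.Opens.fromSpecStalkOfMem_toSpecΓ]
    rw [← Category.assoc (Spec.map ((Proj 𝒮).residue x)), ← Spec.map_comp]
    rfl
  rw [ptHom, key]
  rfl

/-- Auxiliary: the fraction `l₁/l₀`. -/
def PF2_frac (l₀ l₁ : 𝒮 1) : HomogeneousLocalization.NumDenSameDeg 𝒮 (.powers (l₀ : S)) :=
  ⟨1, l₁, l₀, ⟨1, pow_one _⟩⟩

/-- Auxiliary: `l₁/l₀ - c = (l₁ - c l₀)/l₀`. -/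
theorem PF2_sub (l₀ l₁ : 𝒮 1) (c : ℂ) :
    (HomogeneousLocalization.mk (PF2_frac 𝒮 l₀ l₁) :
      HomogeneousLocalization.Away 𝒮 (l₀ : S)) -
      HomogeneousLocalization.fromZeroRingHom 𝒮 _ (algebraMap ℂ (𝒮 0) c) =
      HomogeneousLocalization.mk (PF2_frac 𝒮 l₀ (l₁ - c • l₀)) := by
  apply HomogeneousLocalization.val_injective
  rw [HomogeneousLocalization.val_sub, HomogeneousLocalization.val_mk,
    HomogeneousLocalization.val_mk]
  have e : (HomogeneousLocalization.fromZeroRingHom 𝒮 (.powers (l₀ : S))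
      (algebraMap ℂ (𝒮 0) c)).val = Localization.mk (algebraMap ℂ S c) 1 := by
    rfl
  have e2 : (Localization.mk (algebraMap ℂ S c) 1 : Localization (Submonoid.powers (l₀ : S))) =
      Localization.mk (algebraMap ℂ S c * (l₀ : S))
        (⟨(l₀ : S), ⟨1, pow_one _⟩⟩ : Submonoid.powers (l₀ : S)) := by
    rw [Localization.mk_eq_mk', IsLocalization.mk'_eq_iff_eq]
    congr 1
    simp [mul_comm]
  rw [e, e2, sub_eq_iff_eq_add]
  have e3 : (l₁ : S) = ((l₁ - c • l₀ : 𝒮 1) : S) + algebraMap ℂ S c * (l₀ : S) := by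
    rw [Submodule.coe_sub, Submodule.coe_smul, Algebra.smul_def, sub_add_cancel]
  change Localization.mk (l₁ : S) (⟨(l₀ : S), ⟨1, pow_one _⟩⟩ : Submonoid.powers (l₀ : S)) =
    Localization.mk ((l₁ - c • l₀ : 𝒮 1) : S)
      (⟨(l₀ : S), ⟨1, pow_one _⟩⟩ : Submonoid.powers (l₀ : S)) + _
  rw [Localization.add_mk_self, ← e3]

/-- ZP4. The section `l₁/l₀` over `D₊(l₀)`: the basic open set is `D₊(l₀) ∩ D₊(l₁)`, and if its
value at a point `x` is the constant `c`, then `l₁ - c l₀` vanishes at `x`. (The second property in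
the form: `h - c` vanishes at `x`, where `c` is the image of a constant in the sections, implies
`l₁ - c • l₀ ∈ vanAt 𝒮 x`; proof: `h = awayToSection (l₁/l₀)`, `c = awayToSection ((c l₀)/l₀)`.) -/
theorem exists_ratio (f : Proj 𝒮 ⟶ Spec (.of ℂ))
    (hf : f = Proj.toSpecZero 𝒮 ≫ Spec.map (CommRingCat.ofHom (algebraMap ℂ (𝒮 0))))
    (l₀ l₁ : 𝒮 1) : ∃ h : Γ(Proj 𝒮, Proj.basicOpen 𝒮 (l₀ : S)),
      (Proj 𝒮).basicOpen h = Proj.basicOpen 𝒮 (l₀ : S) ⊓ Proj.basicOpen 𝒮 (l₁ : S) ∧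
      ∀ (x : Proj 𝒮) (hx : x ∈ Proj.basicOpen 𝒮 (l₀ : S)) (c : ℂ),
        (Proj 𝒮).evaluation (Proj.basicOpen 𝒮 (l₀ : S)) x hx h = ptHom f x c →
          l₁ - c • l₀ ∈ vanAt 𝒮 x := by
  refine ⟨Proj.awayToSection 𝒮 (l₀ : S) (HomogeneousLocalization.mk (PF2_frac 𝒮 l₀ l₁)), ?_, ?_⟩
  · ext x
    constructor
    · intro h
      have h0 : x ∈ Proj.basicOpen 𝒮 (l₀ : S) := Scheme.basicOpen_le _ _ h
      exact ⟨h0, (PF2_mem_basicOpen 𝒮 (PF2_frac 𝒮 l₀ l₁) x h0).1 h⟩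
    · rintro ⟨h0, h1⟩
      exact (PF2_mem_basicOpen 𝒮 (PF2_frac 𝒮 l₀ l₁) x h0).2 h1
  · intro x hx c hev
    rw [← PF2_eval_const 𝒮 f hf l₀.2 one_pos x hx c, ← sub_eq_zero, ← map_sub, ← map_sub,
      PF2_sub, Scheme.evaluation_eq_zero_iff_notMem_basicOpen,
      PF2_mem_basicOpen 𝒮 (PF2_frac 𝒮 l₀ (l₁ - c • l₀)) x hx, not_not] at hev
    exact hev

end M21.Z
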