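import Mathlib

/-! # M21 (MP_21b43d), section 3, file Z/Pole: a field with an element having exactly one pole,
which is simple, is generated by this element. Pure algebra, independent of the other files. -/

open WithZero

namespace M21.Z

variable {k K : Type*} [Field k] [Field K] [Algebra k K]

/-- An element that lies in all valuation rings containing the constants is a constant. -/
theorem exists_const_of_forall_mem [IsAlgClosed k] {x : K}
    (h : ∀ V : ValuationSubring K, (∀ c : k, algebraMap k K c ∈ V) → x ∈ V) :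
    ∃ c : k, algebraMap k K c = x := by
  have hx : IsIntegral k x := by
    by_contra hx
    have hmem : x ∉ (integralClosure k K).toSubring := hx
    have : IsIntegrallyClosedIn (integralClosure k K).toSubring K :=
      inferInstanceAs (IsIntegrallyClosedIn (integralClosure k K) K)
    obtain ⟨V, hV, hxV⟩ :=
      Subring.exists_le_valuationSubring_of_isIntegrallyClosedIn hmem
    exact hxV (h V fun c => hV (show algebraMap k K c ∈ (integralClosure k K).toSubring from
      (integralClosure k K).algebraMap_mem c))
  have hd := IsAlgClosed.degree_eq_one_of_irreducible k (minpoly.irreducible hx)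
  exact minpoly.mem_range_of_degree_eq_one k x hd

/-- The elements integral over `k[g]` are polynomials in `g`. -/
theorem mem_adjoin_of_le_exp [IsAlgClosed k] (v : Valuation K ℤᵐ⁰)
    (hres : ∀ x : K, v x ≤ 1 → ∃ c : k, v (x - algebraMap k K c) < 1)
    {g : K} (hg : v g = exp 1)
    (hV : ∀ V : ValuationSubring K, (∀ c : k, algebraMap k K c ∈ V) →
      g ∈ V ∨ ∀ x, v x ≤ 1 → x ∈ V)
    (n : ℕ) : ∀ b : K, IsIntegral (Algebra.adjoin k {g}) b → v b ≤ exp (n : ℤ) →
      b ∈ Algebra.adjoin k {g} := by
  induction n with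
  | zero =>
    intro b hb hvb
    have hvb' : v b ≤ 1 := by simpa using hvb
    obtain ⟨c, hc⟩ := exists_const_of_forall_mem (k := k) (x := b) (by
      intro V hkV
      rcases hV V hkV with hgV | hall
      · have hsub : ∀ y ∈ Algebra.adjoin k {g}, y ∈ V := by
          intro y hy
          induction hy using Algebra.adjoin_induction with
          | mem y hy => rw [Set.mem_singleton_iff] at hy; rw [hy]; exact hgV
          | algebraMap c => exact hkV c
          | add a b _ _ ha hb => exact V.add_mem _ _ ha hb
          | mul a b _ _ ha hb => exact V.mul_mem _ _ ha hb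
        let φ : Algebra.adjoin k {g} →+* V :=
          { toFun := fun y => ⟨y.1, hsub y.1 y.2⟩
            map_one' := rfl
            map_mul' := fun _ _ => rfl
            map_zero' := rfl
            map_add' := fun _ _ => rfl }
        have hbV : IsIntegral V b := by
          obtain ⟨p, hp, hpb⟩ := hb
          refine ⟨p.map φ, hp.map φ, ?_⟩
          rw [Polynomial.eval₂_map]
          exact hpb
        obtain ⟨y, hy⟩ := IsIntegrallyClosed.isIntegral_iff.1 hbV
        rw [← hy]
        exact y.2
      · exact hall b hvb')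
    rw [← hc]
    exact Subalgebra.algebraMap_mem _ c
  | succ n ih =>
    intro b hb hvb
    have hg0 : g ≠ 0 := by
      intro h0
      rw [h0, map_zero] at hg
      exact absurd hg.symm (by simp)
    have hvg : v (g ^ (n + 1)) = exp ((n + 1 : ℕ) : ℤ) := by
      rw [map_pow, hg, ← WithZero.exp_nsmul]
      simp
    have h1 : v (b / g ^ (n + 1)) ≤ 1 := by
      rw [map_div₀, hvg]
      exact div_le_one_of_le₀ hvb zero_le
    obtain ⟨c, hc⟩ := hres _ h1
    have h2 : v (b - algebraMap k K c * g ^ (n + 1)) ≤ exp (n : ℤ) := by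
      have h3 : b - algebraMap k K c * g ^ (n + 1) =
          (b / g ^ (n + 1) - algebraMap k K c) * g ^ (n + 1) := by
        rw [sub_mul, div_mul_cancel₀ _ (pow_ne_zero _ hg0)]
      have h4 : v (b - algebraMap k K c * g ^ (n + 1)) < exp ((n + 1 : ℕ) : ℤ) := by
        rw [h3, map_mul, hvg]
        exact mul_lt_of_lt_one_left (by simp) hc
      have h5 : exp ((n + 1 : ℕ) : ℤ) = exp (n : ℤ) * exp 1 := by
        rw [← exp_add]
        push_cast
        rfl
      rw [h5] at h4
      exact (lt_mul_exp_iff_le (by simp)).1 h4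
    have hgm : g ∈ Algebra.adjoin k {g} := Algebra.subset_adjoin rfl
    have hcm : algebraMap k K c * g ^ (n + 1) ∈ Algebra.adjoin k {g} :=
      Subalgebra.mul_mem _ (Subalgebra.algebraMap_mem _ c) (Subalgebra.pow_mem _ hgm _)
    have h5 := ih (b - algebraMap k K c * g ^ (n + 1))
      (hb.sub (isIntegral_algebraMap (R := Algebra.adjoin k {g})
        (x := ⟨algebraMap k K c * g ^ (n + 1), hcm⟩))) h2
    have h6 := Subalgebra.add_mem _ h5 hcm
    simpa using h6

/-- `K = k(g)` if `g` has exactly one pole `v`, which is simple, and `K` is algebraic over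
`k[g]`. -/
theorem adjoin_eq_top_of_pole [IsAlgClosed k] (v : Valuation K ℤᵐ⁰)
    (hres : ∀ x : K, v x ≤ 1 → ∃ c : k, v (x - algebraMap k K c) < 1)
    {g : K} (hg : v g = exp 1)
    (hV : ∀ V : ValuationSubring K, (∀ c : k, algebraMap k K c ∈ V) →
      g ∈ V ∨ ∀ x, v x ≤ 1 → x ∈ V)
    (halg : Algebra.IsAlgebraic (Algebra.adjoin k {g}) K) :
    IntermediateField.adjoin k {g} = ⊤ := by
  rw [eq_top_iff]
  intro x _
  obtain ⟨y, hy0, hy⟩ := (halg.isAlgebraic x).exists_integral_multiple
  have hle : ∃ n : ℕ, v (y • x) ≤ exp (n : ℤ) := by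
    refine ⟨(log (v (y • x))).toNat, le_exp_log.trans ?_⟩
    rw [exp_le_exp]
    exact Int.self_le_toNat _
  obtain ⟨n, hn⟩ := hle
  have h1 := mem_adjoin_of_le_exp v hres hg hV n _ hy hn
  have h2 : (y : K) ≠ 0 := fun h => hy0 (Subtype.ext h)
  have h3 : x = (y • x) / (y : K) := by
    rw [Subalgebra.smul_def, smul_eq_mul, mul_div_cancel_left₀ _ h2]
  rw [h3]
  exact div_mem (IntermediateField.algebra_adjoin_le_adjoin k _ h1)
    (IntermediateField.algebra_adjoin_le_adjoin k _ y.2)

/-- The field is the rational function field. -/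
theorem nonempty_ratFunc_of_pole [IsAlgClosed k] (v : Valuation K ℤᵐ⁰)
    (hres : ∀ x : K, v x ≤ 1 → ∃ c : k, v (x - algebraMap k K c) < 1)
    {g : K} (hg : v g = exp 1) (htr : Transcendental k g)
    (hV : ∀ V : ValuationSubring K, (∀ c : k, algebraMap k K c ∈ V) →
      g ∈ V ∨ ∀ x, v x ≤ 1 → x ∈ V)
    (halg : Algebra.IsAlgebraic (Algebra.adjoin k {g}) K) :
    Nonempty (RatFunc k ≃ₐ[k] K) := by
  have h := adjoin_eq_top_of_pole v hres hg hV halg
  exact ⟨(RatFunc.algEquivOfTranscendental g htr).trans
    ((IntermediateField.equivOfEq h).trans IntermediateField.topEquiv)⟩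

section Dim

variable (k)
variable (R : Type*) [CommRing R] [IsDomain R] [Algebra k R] [Algebra.FiniteType k R]

/-- Noether normalisation: the transcendence degree of a finitely generated domain of dimension
at most one is at most one. -/
theorem trdeg_le_one [Ring.DimensionLEOne R] : Algebra.trdeg k R ≤ 1 := by
  obtain ⟨s, φ, hinj, hfin⟩ := exists_finite_inj_algHom_of_fg k R
  let _ : Algebra (MvPolynomial (Fin s) k) R := φ.toRingHom.toAlgebra
  have : IsScalarTower k (MvPolynomial (Fin s) k) R :=
    IsScalarTower.of_algebraMap_eq fun c => (φ.commutes c).symm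
  have hinj' : Function.Injective (algebraMap (MvPolynomial (Fin s) k) R) := hinj
  have : FaithfulSMul (MvPolynomial (Fin s) k) R := by
    rw [faithfulSMul_iff_algebraMap_injective]
    exact hinj'
  have : Module.Finite (MvPolynomial (Fin s) k) R := hfin
  have h1 : Algebra.trdeg k R = (s : Cardinal) := by
    have h := lift_trdeg_add_eq k (MvPolynomial (Fin s) k) R
    have h0 : Algebra.trdeg (MvPolynomial (Fin s) k) R = 0 := trdeg_eq_zero
    rw [h0, MvPolynomial.trdeg_of_isDomain] at h
    simpa using h.symm
  rw [h1]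
  have hs : s ≤ 1 := by
    by_contra hs
    rw [not_le] at hs
    let a : Fin s := ⟨0, by omega⟩
    let b : Fin s := ⟨1, by omega⟩
    have hab : a ≠ b := by simp [a, b, Fin.ext_iff]
    let P : Ideal (MvPolynomial (Fin s) k) := Ideal.span {MvPolynomial.X a}
    have hP : P.IsPrime :=
      (Ideal.span_singleton_prime (MvPolynomial.X_ne_zero a)).2 (MvPolynomial.X_prime (i := a))
    obtain ⟨Q, hQ, hQP⟩ := Ideal.exists_ideal_over_prime_of_isIntegral_of_isDomain
      (S := R) P (by
        rw [(RingHom.injective_iff_ker_eq_bot _).1 hinj']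
        exact bot_le)
    have hQ0 : Q ≠ ⊥ := by
      intro h0
      rw [h0] at hQP
      have h2 : (MvPolynomial.X a : MvPolynomial (Fin s) k) ∈ P := Ideal.subset_span rfl
      rw [← hQP, Ideal.mem_comap, Ideal.mem_bot] at h2
      exact MvPolynomial.X_ne_zero a (hinj' (h2.trans (map_zero _).symm))
    have hQm : Q.IsMaximal := hQ.isMaximal hQ0
    have hPm : P.IsMaximal := by
      rw [← hQP]
      exact Ideal.isMaximal_comap_of_isIntegral_of_isMaximal Q
    have hXb : (MvPolynomial.X b : MvPolynomial (Fin s) k) ∉ P := by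
      intro hX
      obtain ⟨q, hq⟩ := Ideal.mem_span_singleton'.1 hX
      have := congrArg (MvPolynomial.eval (fun i : Fin s => if i = a then (0 : k) else 1)) hq
      simp [hab.symm] at this
    obtain ⟨y, i, hi, hyi⟩ := hPm.exists_inv hXb
    obtain ⟨q, hq⟩ := Ideal.mem_span_singleton'.1 hi
    rw [← hq] at hyi
    have := congrArg (MvPolynomial.eval (fun _ : Fin s => (0 : k))) hyi
    simp at this
  exact_mod_cast hs

end Dim

end M21.Z
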