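import Pool.Agent.H.MP_21b43d_ag.Z.Normal
import Pool.Agent.H.MP_21b43d_ag.Z.ExtD
import Pool.Agent.H.MP_21b43d_ag.Defs

/-! # M21 (MP_21b43d), section 3, file Z/Top: the case `T = X` of Theorem Z. -/

open CategoryTheory CategoryTheory.Limits AlgebraicGeometry TopologicalSpace

noncomputable section

namespace M21.Z

variable {X : Scheme.{0}}

/-- The structure sheaf. -/
def OX (X : Scheme.{0}) : X.Modules := SheafOfModules.unit X.ringCatSheaf

/-- Functions as sections of the structure sheaf. -/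
def toO {V : X.Opens} (r : Γ(X, V)) : Γ(OX X, V) := r

/-- Sections of the structure sheaf as functions. -/
def ofO {V : X.Opens} (r : Γ(OX X, V)) : Γ(X, V) := r

theorem toO_ofO {V : X.Opens} (r : Γ(OX X, V)) : toO (ofO r) = r := rfl

theorem ofO_toO {V : X.Opens} (r : Γ(X, V)) : ofO (toO r) = r := rfl

theorem res_toO {U V : X.Opens} (h : V ≤ U) (r : Γ(X, U)) :
    res (OX X) h (toO r) = toO (resF h r) := rfl

theorem toO_add {V : X.Opens} (r s : Γ(X, V)) : toO (r + s) = toO r + toO s := rfl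

theorem toO_sub {V : X.Opens} (r s : Γ(X, V)) : toO (r - s) = toO r - toO s := rfl

theorem smul_toO {V : X.Opens} (r s : Γ(X, V)) : r • toO s = toO (r * s) := rfl

/-- Lifts of sections through a short exact sequence of sheaves. -/
theorem exists_lift {M N K : X.Modules} {a : M ⟶ N} {b : N ⟶ K} {w : a ≫ b = 0}
    (hS : (ShortComplex.mk a b w).ShortExact) {U : X.Opens} (s : Γ(N, U)) (hs : b.app U s = 0) :
    ∃ t : Γ(M, U), a.app U t = s := by
  obtain ⟨t, ht⟩ := exists_kernel_ι b s hs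
  have hf : Mono a := hS.mono_f
  let φ : kernel b ⟶ M := hS.exact.lift (kernel.ι b) (kernel.condition b)
  have hφ : φ ≫ a = kernel.ι b := hS.exact.lift_f _ _
  refine ⟨φ.app U t, ?_⟩
  rw [← comp_app_apply, hφ, ht]

theorem exists_affine_unit {M : X.Modules} (b : M ⟶ OX X) [Epi b] (x : X) :
    ∃ (V : X.Opens) (_ : IsAffineOpen V) (_ : x ∈ V) (e : Γ(M, V)), b.app V e = toO 1 := by
  obtain ⟨V, hV, hxV, t, ht⟩ := locSurj_of_epi b ⊤ (toO 1) x trivial
  obtain ⟨W, hW, hxW, hWV⟩ := exists_isAffineOpen_mem_and_subset hxV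
  have hWV' : W ≤ V := hWV
  refine ⟨W, hW, hxW, res M hWV' t, ?_⟩
  rw [app_res, ht, res_res, res_toO]
  congr 1
  exact map_one _

theorem resF_sub {U V : X.Opens} (h : V ≤ U) (r s : Γ(X, U)) :
    resF h (r - s) = resF h r - resF h s := map_sub _ _ _

theorem resF_mul {U V : X.Opens} (h : V ≤ U) (r s : Γ(X, U)) :
    resF h (r * s) = resF h r * resF h s := map_mul _ _ _

theorem evaluation_resF {U V : X.Opens} (h : V ≤ U) (z : X) (hzU : z ∈ U) (hzV : z ∈ V)
    (s : Γ(X, U)) : X.evaluation V z hzV (resF h s) = X.evaluation U z hzU s :=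
  evaluation_res h z hzU hzV s

/-- A short exact sequence `0 → 𝒪 → M → 𝒪 → 0` that does not split gives a cocycle that does not
die at the generic point. -/
theorem exists_cocycle_of_extension [IsIntegral X] (f : X ⟶ Spec (.of ℂ)) [LocallyOfFiniteType f]
    (hloc : ∀ x : X, IsClosed ({x} : Set X) → IsIntegrallyClosed (X.presheaf.stalk x))
    {z : X} (hzg : ∀ y : X, z ⤳ y) {M : X.Modules} (a : OX X ⟶ M) (b : M ⟶ OX X)
    (w : a ≫ b = 0) (hS : (ShortComplex.mk a b w).ShortExact)
    (hns : ¬ ∃ s : OX X ⟶ M, s ≫ b = 𝟙 (OX X)) :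
    ∃ (ι : Type) (U : ι → X.Opens) (c : Cocycle U), (∀ x : X, ∃ i, x ∈ U i) ∧ ¬ Dies c z := by
  have hepi : Epi b := hS.epi_g
  have hmono : Mono a := hS.mono_f
  choose U hU hxU e he using fun x => exists_affine_unit (X := X) b x
  have hzU : ∀ x, z ∈ U x := fun x => (hzg x).mem_open (U x).2 (hxU x)
  have hlift : ∀ x y, ∃ t : Γ(OX X, U x ⊓ U y), a.app (U x ⊓ U y) t =
      res M inf_le_left (e x) - res M inf_le_right (e y) := by
    intro x y
    refine exists_lift hS _ ?_
    rw [app_sub, app_res, app_res, he, he, res_toO, res_toO]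
    simp [resF]
  choose c hc using hlift
  have hinj : ∀ V : X.Opens, Function.Injective (a.app V) := injective_of_mono a
  let C : Cocycle U :=
    { c := fun i j => ofO (c i j)
      add := by
        intro i j k V h1 h2 h3
        have h4 : a.app V (res (OX X) h1 (c i j) + res (OX X) h2 (c j k)) =
            a.app V (res (OX X) h3 (c i k)) := by
          rw [app_add, app_res, app_res, app_res, hc, hc, hc, res_sub, res_sub, res_sub,
            res_res, res_res, res_res, res_res, res_res, res_res]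
          abel
        exact hinj V h4 }
  refine ⟨X, U, C, fun x => ⟨x, hxU x⟩, ?_⟩
  rintro ⟨d, gg, hd, h1, h2⟩
  have hsec : ∀ x, ∃ s : Γ(X, U x), X.evaluation (U x) z (hzU x) s = gg x := fun x =>
    exists_section f hloc hzg (hU x) (hzU x) (gg x) (h2 x (U x) (hU x) le_rfl (hzU x))
  choose γ hγ using hsec
  have hγc : ∀ x y, resF inf_le_left (γ x) - resF inf_le_right (γ y) =
      (d : Γ(X, U x ⊓ U y)) * ofO (c x y) := by
    intro x y
    have hzxy : z ∈ U x ⊓ U y := ⟨hzU x, hzU y⟩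
    apply evaluation_injective hzg hzxy
    rw [map_sub, evaluation_resF (inf_le_left : U x ⊓ U y ≤ U x) z (hzU x) hzxy,
      evaluation_resF (inf_le_right : U x ⊓ U y ≤ U y) z (hzU y) hzxy,
      hγ, hγ, map_mul, map_natCast]
    exact h1 x y (hzU x) (hzU y)
  let δ : Γ(X, ⊤) := cmap f ((d : ℂ)⁻¹)
  have hδ : ∀ V : X.Opens, resF (le_top : V ≤ ⊤) δ * (d : Γ(X, V)) = 1 := by
    intro V
    have h3 : δ * (d : Γ(X, ⊤)) = 1 := by
      rw [← map_natCast (cmap f), ← map_mul, inv_mul_cancel₀ (Nat.cast_ne_zero.2 hd.ne'), map_one]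
    have h4 := congrArg (resF (le_top : V ≤ ⊤)) h3
    rw [resF_mul] at h4
    simpa [resF] using h4
  let e' : ∀ x, Γ(M, U x) := fun x =>
    e x - a.app (U x) (toO (resF (le_top : U x ≤ ⊤) δ * γ x))
  have hglue : ∀ x y, res M (inf_le_left : U x ⊓ U y ≤ U x) (e' x) =
      res M (inf_le_right : U x ⊓ U y ≤ U y) (e' y) := by
    intro x y
    have key : toO (resF (le_top : U x ⊓ U y ≤ ⊤) δ *
        (resF (inf_le_left : U x ⊓ U y ≤ U x) (γ x) -
          resF (inf_le_right : U x ⊓ U y ≤ U y) (γ y))) = c x y := by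
      rw [hγc, ← mul_assoc, hδ, one_mul, toO_ofO]
    have h5 := hc x y
    rw [← key, mul_sub, toO_sub, app_sub] at h5
    change res M _ (e x - a.app (U x) (toO (resF (le_top : U x ≤ ⊤) δ * γ x))) =
      res M _ (e y - a.app (U y) (toO (resF (le_top : U y ≤ ⊤) δ * γ y)))
    rw [res_sub, res_sub, ← app_res, ← app_res, res_toO, res_toO, resF_mul, resF_mul,
      resF_resF, resF_resF, sub_eq_sub_iff_sub_eq_sub]
    exact h5.symm
  obtain ⟨E, hE⟩ := exists_glue M (U := ⊤) U (fun _ => le_top)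
    (fun x _ => Opens.mem_iSup.2 ⟨x, hxU x⟩) e' hglue
  have hbE : b.app ⊤ E = toO 1 := by
    refine sec_ext _ fun x _ => ⟨U x, le_top, hxU x, ?_⟩
    rw [← app_res, hE]
    change b.app (U x) (e x - a.app (U x) (toO (resF (le_top : U x ≤ ⊤) δ * γ x))) = _
    have h6 : b.app (U x) (a.app (U x) (toO (resF (le_top : U x ≤ ⊤) δ * γ x))) = 0 := by
      rw [← comp_app_apply, w]
      rfl
    rw [app_sub, he, h6, sub_zero, res_toO]
    congr 1
    exact (map_one _).symm
  apply hns
  let σ : OX X ⟶ M := mkHom (fun V r => ofO r • res M le_top E) (fun V r s => add_smul _ _ _)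
    (fun V r s => mul_smul _ _ _) (fun {V W} h r => by
      rw [res_smul, res_res]
      rfl)
  have hσ : ∀ (V : X.Opens) (r : Γ(OX X, V)), σ.app V r = ofO r • res M le_top E :=
    fun V r => rfl
  refine ⟨σ, hom_ext_app fun V r => ?_⟩
  rw [comp_app_apply, hσ, Scheme.Modules.Hom.app_smul, app_res, hbE, res_toO, smul_toO]
  have h7 : ofO r * resF (le_top : V ≤ ⊤) 1 = ofO r := by
    rw [show resF (le_top : V ≤ ⊤) (1 : Γ(X, ⊤)) = 1 from map_one _, mul_one]
  rw [h7]
  rfl

/-- The case `T = X`. -/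
theorem exists_cocycle_top [IsIntegral X] (f : X ⟶ Spec (.of ℂ)) [LocallyOfFiniteType f]
    (hloc : ∀ x : X, IsClosed ({x} : Set X) → IsIntegrallyClosed (X.presheaf.stalk x))
    (hX : IrregularSurface X) {z : X} (hzg : ∀ y : X, z ⤳ y) :
    ∃ (ι : Type) (U : ι → X.Opens) (c : Cocycle U), (∀ x : X, ∃ i, x ∈ U i) ∧ ¬ Dies c z := by
  obtain ⟨g, hg⟩ := hX
  obtain ⟨M, a, b, w, hS, hns⟩ := exists_extension g hg
  exact exists_cocycle_of_extension f hloc hzg (M := M) a b w hS hns

end M21.Z
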